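import Pool.Agent.helper1.KV.Main
import Pool.Agent.helper7.KV.Coord
import Pool.Agent.helper7.KV.Exist

/-!
# Vanishing for fat points in the plane

If the class `(d + 3) L - ∑ (T l + 1) E_l` is nef and big on the blow up of the plane at the
points `p l` and has a section, then the points `p l` with multiplicities `T l` impose independent
conditions on curves of degree `d`.
-/

set_option autoImplicit false

open MvPolynomial Pool.Agent.helper5.NBS

namespace Pool.Agent.helper1.KV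

variable {ι : Type} [Fintype ι] [DecidableEq ι]

/-- Vanishing theorem for fat points in the plane. -/
theorem kv {p : ι → Fin 2 → ℂ} (hp : Function.Injective p) {T : ι → ℕ} {d : ℕ}
    (hnef : ∀ F : R2, F ≠ 0 → ∑ l, (T l + 1) * mult (p l) F ≤ (d + 3) * wdeg 1 F)
    (hbig : ∑ l, (T l + 1) ^ 2 < (d + 3) ^ 2)
    (hex : ∑ l, (T l + 2).choose 2 < (d + 5).choose 2) (c : ι → R2) :
    ∃ f : R2, wdeg 1 f ≤ d ∧ ∀ l, f - c l ∈ ptIdeal (p l) ^ T l := by
  obtain ⟨D, hD0, hDw, hDT⟩ := Pool.Agent.helper7.KV.exists_curve p (fun l => T l + 1) (d + 3) hex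
  obtain ⟨z, hz⟩ := Pool.Agent.helper7.KV.exists_sh hD0
  obtain ⟨f, hf, hfc⟩ := kv_YM (p := fun l => Pool.Agent.helper7.KV.pt z (p l))
    ((Pool.Agent.helper7.KV.pt_injective z).comp hp)
    (D := Pool.Agent.helper7.KV.sh z D) (T := T) (d := d)
    ⟨Pool.Agent.helper7.KV.sh_ne_zero z hD0, hz.symm⟩
    (by rw [hz, Pool.Agent.helper7.KV.wdeg_sh, hDw])
    (fun l => (Pool.Agent.helper7.KV.sh_mem_iff z _ _ _).mpr (hDT l))
    (by
      intro F hF
      obtain ⟨F', rfl⟩ := (Pool.Agent.helper7.KV.sh z).surjective F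
      have hF' : F' ≠ 0 := by
        rintro rfl
        exact hF (map_zero _)
      have := hnef F' hF'
      rw [Pool.Agent.helper7.KV.wdeg_sh]
      simpa only [Pool.Agent.helper7.KV.mult_sh] using this)
    hbig (fun l => Pool.Agent.helper7.KV.sh z (c l))
  obtain ⟨f', rfl⟩ := (Pool.Agent.helper7.KV.sh z).surjective f
  refine ⟨f', by rwa [Pool.Agent.helper7.KV.wdeg_sh] at hf, fun l => ?_⟩
  have := hfc l
  rw [← map_sub, Pool.Agent.helper7.KV.sh_mem_iff] at this
  exact this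

/-- The conditions are independent: dimension version. -/
theorem kv_finrank {p : ι → Fin 2 → ℂ} (hp : Function.Injective p) {T : ι → ℕ} {d : ℕ}
    (hnef : ∀ F : R2, F ≠ 0 → ∑ l, (T l + 1) * mult (p l) F ≤ (d + 3) * wdeg 1 F)
    (hbig : ∑ l, (T l + 1) ^ 2 < (d + 3) ^ 2)
    (hex : ∑ l, (T l + 2).choose 2 < (d + 5).choose 2) :
    2 * Module.finrank ℂ (Vt d ⊓ (Jd p T).restrictScalars ℂ : Submodule ℂ R2) +
      ∑ l, T l * (T l + 1) = (d + 1) * (d + 2) := by
  have h1 : (Vt d).map (jet p T) = ⊤ := by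
    rw [eq_top_iff]
    intro x _
    obtain ⟨F, rfl⟩ := jet_surjective hp T x
    obtain ⟨f, hf, hfF⟩ := kv hp hnef hbig hex (fun _ => F)
    refine ⟨f, mem_Vt.mpr hf, funext fun l => ?_⟩
    exact (Ideal.Quotient.mk_eq_mk_iff_sub_mem _ _).mpr (hfF l)
  have h2 := finrank_inf_ker (Vt d) (jet p T)
  rw [h1, finrank_top, ker_jet hp] at h2
  have h3 := finrank_Vt d
  have h4 := finrank_Jet p T
  rw [← h3, ← h2, ← h4]
  ring

end Pool.Agent.helper1.KV
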