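import Pool.Agent.helper1.KV.Dual

/-!
# Liaison: functionals on `ℂ[X, Y] / (D, G)` are given by polynomials
-/

set_option autoImplicit false

open Pool.Agent.helper5.NBS

namespace Pool.Agent.helper1.KV

open Polynomial

/-- linear algebra: a functional which vanishes where all `B A` vanish is one of them -/
lemma sep {V U : Type*} [AddCommGroup V] [Module ℂ V] [AddCommGroup U] [Module ℂ U]
    (N : Submodule ℂ V) [FiniteDimensional ℂ N] (B : U →ₗ[ℂ] V →ₗ[ℂ] ℂ) (lam : V →ₗ[ℂ] ℂ)
    (h : ∀ f ∈ N, (∀ A, B A f = 0) → lam f = 0) : ∃ A, ∀ f ∈ N, lam f = B A f := by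
  let Ψ : U →ₗ[ℂ] Module.Dual ℂ N :=
    { toFun := fun A => (B A).domRestrict N
      map_add' := by
        intro A A'
        ext f
        simp
      map_smul' := by
        intro c A
        ext f
        simp }
  have hmem : lam.domRestrict N ∈ LinearMap.range Ψ := by
    rw [← Subspace.dualCoannihilator_dualAnnihilator_eq (W := LinearMap.range Ψ),
      Submodule.mem_dualAnnihilator]
    intro f hf
    rw [Submodule.mem_dualCoannihilator] at hf
    exact h f.1 f.2 fun A => hf _ ⟨A, rfl⟩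
  obtain ⟨A, hA⟩ := hmem
  exact ⟨A, fun f hf => (LinearMap.congr_fun hA ⟨f, hf⟩).symm⟩

variable {D : PP} {g : ℂ[X]} {a b : ℕ}

/-- every functional vanishing on `(D, g)` is `τ (A ·)` -/
theorem exists_rep (hD : D.Monic) (hDa : D.natDegree = a) (hDW : D ∈ W a) (hg : g.Monic)
    (hgb : g.natDegree = b) (ha : 0 < a) (hb : 0 < b) (lam : PP →ₗ[ℂ] ℂ)
    (h : ∀ f ∈ Ideal.span {D, C g}, lam f = 0) :
    ∃ A : PP, ∀ f, lam f = tau D g a b (A * f) := by
  classical
  set N : Submodule ℂ PP := Submodule.span ℂ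
    (Set.range fun ij : Fin b × Fin a => mon ij.1 ij.2) with hN
  have hfin : FiniteDimensional ℂ N := FiniteDimensional.span_of_finite ℂ (Set.finite_range _)
  have hredN : ∀ f, Red a b f → f ∈ N := by
    intro f hf
    rw [hf.sum]
    apply Submodule.sum_mem
    intro j hj
    apply Submodule.sum_mem
    intro i hi
    apply Submodule.smul_mem
    exact Submodule.subset_span ⟨(⟨i, Finset.mem_range.mp hi⟩, ⟨j, Finset.mem_range.mp hj⟩), rfl⟩
  have hex : ∀ f : PP, ∃ f' ∈ N, f - f' ∈ Ideal.span {D, C g} := by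
    intro f
    obtain ⟨K, hK⟩ := exists_W f
    obtain ⟨f', h1, h2, -⟩ := exists_red hD hDa hDW hg hgb hK
    exact ⟨f', hredN _ h2, h1⟩
  have hkill : ∀ A f, f ∈ Ideal.span {D, C g} → tau D g a b (A * f) = 0 := by
    intro A f hf
    obtain ⟨u, v, rfl⟩ := Ideal.mem_span_pair.mp hf
    have : A * (u * D + v * C g) = D * (A * u) + C g * (A * v) := by ring
    rw [this, map_add, tau_D hD, tau_g hg, add_zero]
  let B : PP →ₗ[ℂ] PP →ₗ[ℂ] ℂ :=
    { toFun := fun A => tau D g a b ∘ₗ LinearMap.mulLeft ℂ A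
      map_add' := by
        intro A A'
        refine LinearMap.ext fun f => ?_
        simp [add_mul]
      map_smul' := by
        intro c A
        refine LinearMap.ext fun f => ?_
        simp }
  have hB : ∀ A f, B A f = tau D g a b (A * f) := fun _ _ => rfl
  obtain ⟨A, hA⟩ := sep N B lam (by
    intro f _ hf
    apply h
    apply nondeg hD hDa hDW hg hgb ha hb
    intro A
    rw [mul_comm, ← hB]
    exact hf A)
  refine ⟨A, fun f => ?_⟩
  obtain ⟨f', hf', hff'⟩ := hex f
  have h1 := hA f' hf'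
  rw [hB] at h1
  have h2 : lam f = lam f' := by
    rw [← sub_eq_zero, ← map_sub]
    exact h _ hff'
  have h3 : tau D g a b (A * f) = tau D g a b (A * f') := by
    rw [← sub_eq_zero, ← map_sub, ← mul_sub]
    exact hkill _ _ hff'
  rw [h2, h3]
  exact h1

/-- the version in `ℂ[X][Y]` -/
theorem ci_PP {d : ℕ} (hD : D.Monic) (hDa : D.natDegree = a) (hDW : D ∈ W a) (hg : g.Monic)
    (hgb : g.natDegree = b) (had : a = d + 3) (lam : PP →ₗ[ℂ] ℂ)
    (h : ∀ f ∈ Ideal.span {D, C g}, lam f = 0) (h3 : ∀ f ∈ W d, lam f = 0) (h4 : lam ≠ 0) :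
    ∃ A ∈ W b, A ∉ Ideal.span {D, C g} ∧
      ∀ f, (∀ g', lam (f * g') = 0) → A * f ∈ Ideal.span {D, C g} := by
  have hb : 0 < b := by
    rcases Nat.eq_zero_or_pos b with h0 | h0
    · exfalso
      apply h4
      have h1 : g = 1 := by
        rw [← hg.natDegree_eq_zero, hgb, h0]
      ext1 f
      apply h
      rw [h1, Ideal.mem_span_pair]
      exact ⟨0, f, by simp⟩
    · exact h0
  have ha : 0 < a := by omega
  obtain ⟨A₀, hA₀⟩ := exists_rep hD hDa hDW hg hgb ha hb lam h
  obtain ⟨A, hAb, hA⟩ := nondeg_deg hD hDa hDW hg hgb hb had (A := A₀)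
    (fun f hf => by rw [← hA₀]; exact h3 f hf)
  obtain ⟨u, v, huv⟩ := Ideal.mem_span_pair.mp hA
  have hlam : ∀ f, lam f = tau D g a b (A * f) := by
    intro f
    have h1 : A * f = A₀ * f - D * (u * f) - C g * (v * f) := by
      linear_combination f * huv
    rw [h1, map_sub, map_sub, tau_D hD, tau_g hg, sub_zero, sub_zero, hA₀]
  refine ⟨A, hAb, ?_, ?_⟩
  · intro hmem
    apply h4
    ext1 f
    rw [hlam]
    obtain ⟨u, v, hu⟩ := Ideal.mem_span_pair.mp hmem
    have h1 : A * f = D * (u * f) + C g * (v * f) := by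
      linear_combination -f * hu
    rw [h1, map_add, tau_D hD, tau_g hg, add_zero]
    rfl
  · intro f hf
    apply nondeg hD hDa hDW hg hgb ha hb
    intro g'
    rw [mul_assoc, ← hlam]
    exact hf g'

lemma C_ofP (c : ℂ) : ofP (C (C c)) = MvPolynomial.C c := by
  simp [ofP]

lemma toP_C (c : ℂ) : toP (MvPolynomial.C c) = C (C c) := by
  rw [← C_ofP, toP_ofP]

/-- `ofP` as a linear map -/
noncomputable def ofPl : PP →ₗ[ℂ] R2 where
  toFun := ofP
  map_add' := map_add _
  map_smul' c f := by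
    have h1 : c • f = C (C c) * f := by
      rw [← smul_eq_C_mul]
      ext j i
      simp
    rw [h1, map_mul, C_ofP, RingHom.id_apply, MvPolynomial.smul_eq_C_mul]

/-- Liaison: a functional vanishing on `(D, G)` and in degrees `≤ deg D - 3` is given by a
polynomial of degree at most `deg G`. -/
theorem ci {D : R2} {g : ℂ[X]} {d b : ℕ} (hD : YM D) (hDa : ydeg D = d + 3) (hg : g.Monic)
    (hgb : g.natDegree = b) (lam : R2 →ₗ[ℂ] ℂ) (h1 : ∀ f, lam (D * f) = 0)
    (h2 : ∀ f, lam (ofP (C g) * f) = 0) (h3 : ∀ f, wdeg 1 f ≤ d → lam f = 0) (h4 : lam ≠ 0) :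
    ∃ A : R2, wdeg 1 A ≤ b ∧ A ∉ Ideal.span {D, ofP (C g)} ∧
      ∀ f, (∀ g', lam (f * g') = 0) → A * f ∈ Ideal.span {D, ofP (C g)} := by
  obtain ⟨c, hc, hlc⟩ := hD.leadingCoeff
  set E : PP := toP (MvPolynomial.C c⁻¹ * D) with hE
  have hC0 : (MvPolynomial.C c⁻¹ : R2) ≠ 0 := by simpa using hc
  have hmon : E.Monic := by
    rw [Polynomial.Monic, hE, map_mul, Polynomial.leadingCoeff_mul, hlc, toP_C,
      Polynomial.leadingCoeff_C, ← Polynomial.C_mul, inv_mul_cancel₀ hc, Polynomial.C_1]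
  have hyE : ydeg (MvPolynomial.C c⁻¹ * D) = ydeg D := by
    rw [ydeg_mul hC0 hD.1]
    simp [ydeg]
  have hnd : E.natDegree = d + 3 := by
    rw [hE, natDegree_toP, hyE, hDa]
  have hEW : E ∈ W (d + 3) := by
    rw [hE, toP_mem_W, wdeg_C_mul (inv_ne_zero hc), hD.2, hDa]
  have hspan : ∀ F : R2, toP F ∈ Ideal.span {E, C g} ↔ F ∈ Ideal.span {D, ofP (C g)} := by
    intro F
    rw [Ideal.mem_span_pair, Ideal.mem_span_pair]
    constructor
    · rintro ⟨u, v, huv⟩
      refine ⟨ofP u * MvPolynomial.C c⁻¹, ofP v, ?_⟩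
      apply toP_injective
      rw [← huv, map_add, map_mul, map_mul, map_mul, toP_ofP, toP_ofP, toP_ofP, hE, map_mul]
      ring
    · rintro ⟨u, v, huv⟩
      refine ⟨toP (u * MvPolynomial.C c), toP v, ?_⟩
      have h5 : u * MvPolynomial.C c * (MvPolynomial.C c⁻¹ * D) = u * D := by
        have : (MvPolynomial.C c * MvPolynomial.C c⁻¹ : R2) = 1 := by
          rw [← MvPolynomial.C_mul, mul_inv_cancel₀ hc, MvPolynomial.C_1]
        linear_combination (u * D) * this
      rw [← huv, hE, ← map_mul, h5, map_add, map_mul toP v, toP_ofP]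
  obtain ⟨A, hAb, hA, hAf⟩ := ci_PP (a := d + 3) hmon hnd hEW hg hgb rfl (lam ∘ₗ ofPl) (by
    intro f hf
    obtain ⟨u, v, rfl⟩ := Ideal.mem_span_pair.mp hf
    show lam (ofP (u * E + v * C g)) = 0
    have h5 : ofP (u * E + v * C g) = D * (ofP u * MvPolynomial.C c⁻¹) + ofP (C g) * ofP v := by
      rw [map_add, map_mul, map_mul, hE, ofP_toP]
      ring
    rw [h5, map_add, h1, h2, add_zero]) (by
    intro f hf
    show lam (ofP f) = 0
    apply h3
    rw [← toP_mem_W, toP_ofP]
    exact hf) (by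
    intro h5
    apply h4
    refine LinearMap.ext fun f => ?_
    have := LinearMap.congr_fun h5 (toP f)
    change lam (ofP (toP f)) = 0 at this
    rw [ofP_toP] at this
    rw [this]
    rfl)
  refine ⟨ofP A, ?_, ?_, ?_⟩
  · rw [← toP_mem_W, toP_ofP]
    exact hAb
  · rw [← hspan, toP_ofP]
    exact hA
  · intro f hf
    rw [← hspan, map_mul, toP_ofP]
    apply hAf
    intro g'
    show lam (ofP (toP f * g')) = 0
    rw [map_mul, ofP_toP]
    exact hf _

end Pool.Agent.helper1.KV
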