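import Pool.Agent.helper1.KV.Glob

/-!
# Counting conditions on a curve
-/

set_option autoImplicit false
set_option linter.unusedSectionVars false

open MvPolynomial Pool.Agent.helper5.NBS

namespace Pool.Agent.helper1.KV

variable {ι : Type*} [Fintype ι] [DecidableEq ι]

/-- rank and nullity on a subspace -/
lemma finrank_inf_ker {V W : Type*} [AddCommGroup V] [Module ℂ V] [AddCommGroup W] [Module ℂ W]
    (N : Submodule ℂ V) [FiniteDimensional ℂ N] (f : V →ₗ[ℂ] W) :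
    Module.finrank ℂ (N ⊓ LinearMap.ker f : Submodule ℂ V) + Module.finrank ℂ (N.map f) =
      Module.finrank ℂ N := by
  have h1 := LinearMap.finrank_range_add_finrank_ker (f.domRestrict N)
  rw [LinearMap.range_domRestrict, LinearMap.ker_domRestrict] at h1
  have h2 := Submodule.finrank_map_subtype_eq N ((LinearMap.ker f).comap N.subtype)
  rw [Submodule.map_comap_subtype] at h2
  rw [h2, add_comm]
  exact h1

/-- polynomials of degree at most `t` -/
noncomputable abbrev Vt (t : ℕ) : Submodule ℂ R2 := V 1 t t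

lemma mem_Vt {t : ℕ} {F : R2} : F ∈ Vt t ↔ wdeg 1 F ≤ t := by
  rw [mem_V]
  exact ⟨fun h => h.2, fun h => ⟨(ydeg_le_wdeg F).trans h, h⟩⟩

instance finite_Vt (t : ℕ) : FiniteDimensional ℂ (Vt t) := finite_V 1 t t (by omega)

lemma finrank_Vt (t : ℕ) : 2 * Module.finrank ℂ (Vt t) = (t + 1) * (t + 2) := by
  have h1 := two_cnt 1 t t (by omega)
  have h2 := finrank_V 1 t t (by omega)
  rw [Vt, h2]
  zify
  rw [h1]
  push_cast
  ring

lemma crt {p : ι → Fin 2 → ℂ} (hp : Function.Injective p) (N : ι → ℕ) (c : ι → R2) :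
    ∃ F : R2, ∀ l, F - c l ∈ ptIdeal (p l) ^ N l := by
  have h1 := Ideal.quotientInfToPiQuotient_surj (I := fun l => ptIdeal (p l) ^ N l)
    (fun i j hij => (ptIdeal_coprime (hp.ne hij)).pow)
  obtain ⟨x, hx⟩ := h1 (fun l => Ideal.Quotient.mk _ (c l))
  obtain ⟨F, rfl⟩ := Ideal.Quotient.mk_surjective x
  refine ⟨F, fun l => ?_⟩
  rw [← Ideal.Quotient.mk_eq_mk_iff_sub_mem]
  exact congrFun hx l

/-- the space of jets -/
abbrev Jet (p : ι → Fin 2 → ℂ) (N : ι → ℕ) := ∀ l, R2 ⧸ ptIdeal (p l) ^ N l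

/-- the jets of a polynomial -/
noncomputable def jet (p : ι → Fin 2 → ℂ) (N : ι → ℕ) : R2 →ₗ[ℂ] Jet p N :=
  LinearMap.pi fun l => (Ideal.Quotient.mkₐ ℂ (ptIdeal (p l) ^ N l)).toLinearMap

lemma ker_jet {p : ι → Fin 2 → ℂ} (hp : Function.Injective p) (N : ι → ℕ) :
    LinearMap.ker (jet p N) = (Jd p N).restrictScalars ℂ := by
  ext F
  rw [LinearMap.mem_ker, Submodule.restrictScalars_mem, mem_Jd hp, funext_iff]
  exact forall_congr' fun l => Ideal.Quotient.eq_zero_iff_mem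

lemma jet_surjective {p : ι → Fin 2 → ℂ} (hp : Function.Injective p) (N : ι → ℕ) :
    Function.Surjective (jet p N) := by
  intro x
  choose c hc using fun l => Ideal.Quotient.mk_surjective (x l)
  obtain ⟨F, hF⟩ := crt hp N c
  refine ⟨F, funext fun l => ?_⟩
  rw [← hc l]
  exact (Ideal.Quotient.mk_eq_mk_iff_sub_mem _ _).mpr (hF l)

instance finite_Jet (p : ι → Fin 2 → ℂ) (N : ι → ℕ) : FiniteDimensional ℂ (Jet p N) := by
  have : ∀ l, Module.Finite ℂ (R2 ⧸ ptIdeal (p l) ^ N l) := fun l => finite_quot _ _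
  infer_instance

lemma finrank_Jet (p : ι → Fin 2 → ℂ) (N : ι → ℕ) :
    2 * Module.finrank ℂ (Jet p N) = ∑ l, N l * (N l + 1) := by
  have : ∀ l, Module.Finite ℂ (R2 ⧸ ptIdeal (p l) ^ N l) := fun l => finite_quot _ _
  rw [Module.finrank_pi_fintype, Finset.mul_sum]
  apply Finset.sum_congr rfl
  intro l _
  have := finrank_quot (p l) (N l)
  exact_mod_cast this

/-- the conditions are independent in large degree -/
lemma finrank_large {p : ι → Fin 2 → ℂ} (hp : Function.Injective p) (N : ι → ℕ) :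
    ∃ t₀, ∀ t, t₀ ≤ t →
      Module.finrank ℂ (Vt t ⊓ (Jd p N).restrictScalars ℂ : Submodule ℂ R2) +
        Module.finrank ℂ (Jet p N) = Module.finrank ℂ (Vt t) := by
  classical
  obtain ⟨S, hS⟩ := (finite_Jet p N).fg_top
  choose F hF using fun x => jet_surjective hp N x
  refine ⟨S.sup fun x => wdeg 1 (F x), fun t ht => ?_⟩
  have h1 : (Vt t).map (jet p N) = ⊤ := by
    rw [eq_top_iff, ← hS, Submodule.span_le]
    intro x hx
    refine ⟨F x, ?_, hF x⟩
    rw [SetLike.mem_coe, mem_Vt]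
    exact le_trans (Finset.le_sup (f := fun x => wdeg 1 (F x)) hx) ht
  have h2 := finrank_inf_ker (Vt t) (jet p N)
  rw [h1, finrank_top, ker_jet hp] at h2
  exact h2

lemma wdeg_pow_le (A : R2) (n : ℕ) : wdeg 1 (A ^ n) ≤ n * wdeg 1 A := by
  by_cases hA : A = 0
  · rcases Nat.eq_zero_or_pos n with rfl | hn
    · simp [wdeg]
    · rw [hA, zero_pow (by omega)]
      simp [wdeg]
  induction n with
  | zero => simp [wdeg]
  | succ n ih =>
    rw [pow_succ, wdeg_mul 1 (pow_ne_zero _ hA) hA]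
    linarith

lemma wdeg_pow {A : R2} (hA : A ≠ 0) (n : ℕ) : wdeg 1 (A ^ n) = n * wdeg 1 A := by
  induction n with
  | zero => simp [wdeg]
  | succ n ih =>
    rw [pow_succ, wdeg_mul 1 (pow_ne_zero _ hA) hA, ih]
    ring

lemma wdeg_mul_le (A B : R2) : wdeg 1 (A * B) ≤ wdeg 1 A + wdeg 1 B := by
  by_cases hA : A = 0
  · rw [hA, zero_mul]
    simp [wdeg]
  by_cases hB : B = 0
  · rw [hB, mul_zero]
    simp [wdeg]
  rw [wdeg_mul 1 hA hB]

lemma ydeg_pow_eq_zero {G : R2} (hG0 : G ≠ 0) (hG : ydeg G = 0) (n : ℕ) : ydeg (G ^ n) = 0 := by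
  induction n with
  | zero => simp [ydeg]
  | succ n ih => rw [pow_succ, ydeg_mul (pow_ne_zero _ hG0) hG0, ih, hG]

lemma arith1 (N m : ℕ) : N * (N + 1) ≤ (N - m) * (N - m + 1) + 2 * (m * N) := by
  rcases Nat.lt_or_ge N m with h | h
  · have h1 : N * (N + 1) ≤ N * m := Nat.mul_le_mul_left _ h
    have h2 : N * m = m * N := mul_comm _ _
    generalize (N - m) * (N - m + 1) = x
    omega
  · obtain ⟨c, rfl⟩ := Nat.exists_eq_add_of_le h
    rw [Nat.add_sub_cancel_left]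
    have h1 : 2 * (m * (m + c)) = 2 * m * m + 2 * m * c := by ring
    have h2 : (m + c) * (m + c + 1) = c * (c + 1) + 2 * m * c + m * m + m := by ring
    rw [h1, h2]
    have h3 : m ≤ m * m := Nat.le_mul_self m
    nlinarith

lemma arith2 {t e w S A₁ A₂ x x' y z v v' j j' q : ℤ} (h1 : x + j = v) (h2 : x' + j' = v')
    (h3 : z + y = x) (h4 : z ≤ x') (h5 : y ≤ w) (h6 : 2 * v = (t + 1) * (t + 2))
    (h7 : 2 * v' = (t - e + 1) * (t - e + 2))
    (h8 : 2 * w = (e - 1 + 1) * (2 * (t - q + 1) - 1 * (e - 1)))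
    (h10 : 2 * j = A₁) (h11 : 2 * j' = A₂) (h12 : A₁ ≤ A₂ + 2 * S) : 2 * (e * q) ≤ 2 * S := by
  have h : 2 * v ≤ 2 * v' + 2 * w + 2 * S := by linarith
  rw [h6, h7, h8] at h
  linarith

/-- the count for the `n`-th power -/
theorem count_aux {p : ι → Fin 2 → ℂ} (hp : Function.Injective p) {E A G : R2}
    (hE : Prime E) (hYM : YM E) (he : 0 < ydeg E) (hG0 : G ≠ 0) (hG : ydeg G = 0) {δ n : ℕ}
    (hA : wdeg 1 A + δ ≤ wdeg 1 G) (hAE : ¬ E ∣ A) (N : ι → ℕ)
    (hpow : ∀ f ∈ Jd p N, ∃ β, E ∣ A ^ n * f - β * G ^ n) :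
    ydeg E * (n * δ) ≤ ∑ l, mult (p l) E * N l := by
  classical
  set e := ydeg E with hedef
  set N' : ι → ℕ := fun l => N l - mult (p l) E with hN'
  obtain ⟨t₁, ht₁⟩ := finrank_large hp N
  obtain ⟨t₂, ht₂⟩ := finrank_large hp N'
  set t := t₁ + t₂ + e + n * δ with ht
  have h1 := ht₁ t (by omega)
  have h2 := ht₂ (t - e) (by omega)
  set J : Submodule ℂ R2 := (Jd p N).restrictScalars ℂ with hJ
  set J' : Submodule ℂ R2 := (Jd p N').restrictScalars ℂ with hJ'
  let π : R2 →ₗ[ℂ] (R2 ⧸ Ideal.span {E}) := (Ideal.Quotient.mkₐ ℂ (Ideal.span {E})).toLinearMap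
  have hπ : ∀ F, π F = Ideal.Quotient.mk _ F := fun _ => rfl
  have hπ0 : ∀ F, π F = 0 ↔ E ∣ F := by
    intro F
    rw [hπ, Ideal.Quotient.eq_zero_iff_mem, Ideal.mem_span_singleton]
  have hdom : (Ideal.span {E}).IsPrime := (Ideal.span_singleton_prime hE.ne_zero).mpr hE
  have hfin1 : FiniteDimensional ℂ (Vt t ⊓ J : Submodule ℂ R2) :=
    Submodule.finiteDimensional_of_le (inf_le_left : Vt t ⊓ J ≤ Vt t)
  have hfin2 : FiniteDimensional ℂ (Vt (t - e) ⊓ J' : Submodule ℂ R2) :=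
    Submodule.finiteDimensional_of_le (inf_le_left : Vt (t - e) ⊓ J' ≤ Vt (t - e))
  have h3 := finrank_inf_ker (Vt t ⊓ J) π
  -- the multiples of `E`
  have h4 : Module.finrank ℂ (Vt t ⊓ J ⊓ LinearMap.ker π : Submodule ℂ R2) ≤
      Module.finrank ℂ (Vt (t - e) ⊓ J' : Submodule ℂ R2) := by
    have hle : Vt t ⊓ J ⊓ LinearMap.ker π ≤ (Vt (t - e) ⊓ J').map (LinearMap.mulLeft ℂ E) := by
      rintro F ⟨⟨hF1, hF2⟩, hF3⟩
      rw [SetLike.mem_coe, LinearMap.mem_ker, hπ0] at hF3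
      obtain ⟨g, rfl⟩ := hF3
      refine ⟨g, ⟨?_, ?_⟩, rfl⟩
      · rw [SetLike.mem_coe, mem_Vt]
        by_cases hg : g = 0
        · rw [hg]
          simp [wdeg]
        · rw [SetLike.mem_coe, mem_Vt, wdeg_mul 1 hE.ne_zero hg, hYM.2] at hF1
          omega
      · rw [SetLike.mem_coe, hJ', Submodule.restrictScalars_mem, mem_Jd hp]
        intro l
        by_cases hg : g = 0
        · rw [hg]
          exact Ideal.zero_mem _
        rw [SetLike.mem_coe, hJ, Submodule.restrictScalars_mem, mem_Jd hp] at hF2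
        have h5 := hF2 l
        rw [mem_pow_iff_le_mult (mul_ne_zero hE.ne_zero hg), mult_mul hE.ne_zero hg] at h5
        rw [mem_pow_iff_le_mult hg, hN']
        show N l - mult (p l) E ≤ _
        omega
    have hfin3 : FiniteDimensional ℂ ((Vt (t - e) ⊓ J').map (LinearMap.mulLeft ℂ E)) :=
      inferInstance
    exact (Submodule.finrank_mono hle).trans (Submodule.finrank_map_le _ _)
  -- the image in the coordinate ring of `E`
  have h5 : Module.finrank ℂ ((Vt t ⊓ J).map π) ≤ Module.finrank ℂ (V 1 (e - 1) (t - n * δ)) := by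
    have hV : FiniteDimensional ℂ (V 1 (e - 1) (t - n * δ)) := finite_V 1 (e - 1) (t - n * δ)
      (by omega)
    let mA : (R2 ⧸ Ideal.span {E}) →ₗ[ℂ] (R2 ⧸ Ideal.span {E}) := LinearMap.mulLeft ℂ (π (A ^ n))
    let mG : (R2 ⧸ Ideal.span {E}) →ₗ[ℂ] (R2 ⧸ Ideal.span {E}) := LinearMap.mulLeft ℂ (π (G ^ n))
    have hinj : Function.Injective mA := by
      rw [← LinearMap.ker_eq_bot, LinearMap.ker_eq_bot']
      intro x hx
      have h6 : π (A ^ n) * x = 0 := hx
      rcases mul_eq_zero.mp h6 with h7 | h7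
      · rw [hπ0] at h7
        exact absurd (hE.dvd_of_dvd_pow h7) hAE
      · exact h7
    have hle : ((Vt t ⊓ J).map π).map mA ≤ ((V 1 (e - 1) (t - n * δ)).map π).map mG := by
      rintro _ ⟨_, ⟨f, ⟨hf1, hf2⟩, rfl⟩, rfl⟩
      obtain ⟨β, α, hα⟩ := hpow f hf2
      obtain ⟨r, hr1, -, hr2, hr3⟩ := low_degree (G := G ^ n) hYM he (pow_ne_zero n hG0)
        (ydeg_pow_eq_zero hG0 hG n) (h := A ^ n * f) (α := α) (β := β)
        (by linear_combination hα)
      refine ⟨π r, ⟨r, ?_, rfl⟩, ?_⟩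
      · rw [SetLike.mem_coe, mem_V]
        refine ⟨by omega, ?_⟩
        rw [SetLike.mem_coe, mem_Vt] at hf1
        have h6 := wdeg_mul_le (A ^ n) f
        have h7 := wdeg_pow_le A n
        rw [wdeg_pow hG0] at hr3
        have h8 : n * wdeg 1 A + n * δ ≤ n * wdeg 1 G := by
          rw [← mul_add]
          exact Nat.mul_le_mul_left _ hA
        omega
      · show π (G ^ n) * π r = π (A ^ n) * π f
        rw [hπ, hπ, hπ, hπ, ← map_mul, ← map_mul, ← sub_eq_zero, ← map_sub, ← hπ, hπ0]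
        have : G ^ n * r - A ^ n * f = -(A ^ n * f - r * G ^ n) := by ring
        rw [this]
        exact (dvd_neg).mpr hr1
    have hfin4 : FiniteDimensional ℂ (((V 1 (e - 1) (t - n * δ)).map π).map mG) := inferInstance
    have h6 : Module.finrank ℂ (((Vt t ⊓ J).map π).map mA) =
        Module.finrank ℂ ((Vt t ⊓ J).map π) :=
      (Submodule.equivMapOfInjective mA hinj _).finrank_eq.symm
    rw [← h6]
    exact (Submodule.finrank_mono hle).trans
      ((Submodule.finrank_map_le _ _).trans (Submodule.finrank_map_le _ _))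
  -- arithmetic
  have h6 := finrank_Vt t
  have h7 := finrank_Vt (t - e)
  have h8 := two_cnt 1 (e - 1) (t - n * δ) (by omega)
  have h9 := finrank_V 1 (e - 1) (t - n * δ) (by omega)
  have h10 := finrank_Jet p N
  have h11 := finrank_Jet p N'
  have h12 : ∑ l, N l * (N l + 1) ≤ ∑ l, N' l * (N' l + 1) + 2 * ∑ l, mult (p l) E * N l := by
    rw [Finset.mul_sum, ← Finset.sum_add_distrib]
    apply Finset.sum_le_sum
    intro l _
    exact arith1 (N l) (mult (p l) E)
  rw [h9] at h5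
  have h13 : 2 * ((ydeg E : ℤ) * (n * δ)) ≤ 2 * ∑ l, (mult (p l) E * N l : ℤ) := by
    have e1 : ((t - e : ℕ) : ℤ) = t - e := by push_cast [ht]; omega
    have e2 : ((t - n * δ : ℕ) : ℤ) = t - n * δ := by
      rw [Nat.cast_sub (by omega)]; push_cast; ring
    have e3 : ((e - 1 : ℕ) : ℤ) = e - 1 := by
      rw [Nat.cast_sub (by omega)]; push_cast; ring
    rw [e2, e3] at h8
    zify at h1 h2 h3 h4 h5 h6 h7 h10 h11 h12
    rw [e1] at h7
    rw [← hedef]
    have h8' : 2 * (cnt 1 (e - 1) (t - n * δ) : ℤ) =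
        ((e : ℤ) - 1 + 1) * (2 * ((t : ℤ) - n * δ + 1) - 1 * ((e : ℤ) - 1)) := by
      rw [h8]
      push_cast
      ring
    exact arith2 h1 h2 h3 h4 h5 h6 h7 h8' h10 h11 h12
  have h14 : ((ydeg E * (n * δ) : ℕ) : ℤ) ≤ ((∑ l, mult (p l) E * N l : ℕ) : ℤ) := by
    push_cast
    linarith
  exact_mod_cast h14

/-- a congruence of negative degree on the blown up curve is impossible -/
theorem count {p : ι → Fin 2 → ℂ} (hp : Function.Injective p) {E A G : R2}
    (hE : Prime E) (hYM : YM E) (he : 0 < ydeg E) (hG0 : G ≠ 0) (hG : ydeg G = 0) {δ : ℕ}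
    (hA : wdeg 1 A + δ ≤ wdeg 1 G) {m k : ι → ℕ}
    (hpow : ∀ n, ∀ f ∈ Jd p (fun l => m l + n * k l), ∃ β, E ∣ A ^ n * f - β * G ^ n)
    (hlt : ∑ l, mult (p l) E * k l < ydeg E * δ) : E ∣ A := by
  by_contra hAE
  have h1 : ∀ n, ydeg E * (n * δ) ≤ ∑ l, mult (p l) E * (m l + n * k l) :=
    fun n => count_aux hp hE hYM he hG0 hG hA hAE _ (hpow n)
  set S := ∑ l, mult (p l) E * m l with hS
  have h2 := h1 (S + 1)
  have h3 : ∑ l, mult (p l) E * (m l + (S + 1) * k l) = S + (S + 1) * ∑ l, mult (p l) E * k l := by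
    rw [hS, Finset.mul_sum, ← Finset.sum_add_distrib]
    apply Finset.sum_congr rfl
    intro l _
    ring
  rw [h3] at h2
  have h4 : (S + 1) * (∑ l, mult (p l) E * k l + 1) ≤ (S + 1) * (ydeg E * δ) :=
    Nat.mul_le_mul_left _ hlt
  have h5 : ydeg E * ((S + 1) * δ) = (S + 1) * (ydeg E * δ) := by ring
  rw [h5] at h2
  rw [mul_add, mul_one] at h4
  omega

end Pool.Agent.helper1.KV
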