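import Mathlib
import Pool.Agent.helper5.NBSSesh

/-!
# Division with control of the degree in `ℂ[X, Y]`
-/

set_option autoImplicit false

open MvPolynomial Pool.Agent.helper5.NBS

namespace Pool.Agent.helper1.KV

/-- `ℂ[X][Y]` -/
abbrev PP := Polynomial (Polynomial ℂ)

/-- `ℂ[X, Y] → ℂ[X][Y]` -/
noncomputable def toP : R2 →ₐ[ℂ] PP := aeval ![Polynomial.C Polynomial.X, Polynomial.X]

/-- `ℂ[X][Y] → ℂ[X, Y]` -/
noncomputable def ofP : PP →+* R2 :=
  Polynomial.eval₂RingHom (Polynomial.aeval (X 0 : R2) : Polynomial ℂ →ₐ[ℂ] R2).toRingHom (X 1)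

lemma ofP_toP (F : R2) : ofP (toP F) = F := by
  have : (ofP.comp (toP : R2 →+* PP)) = RingHom.id R2 := by
    apply MvPolynomial.ringHom_ext
    · intro a
      simp [ofP, toP, Polynomial.algebraMap_apply]
    · intro i
      fin_cases i <;> simp [ofP, toP]
  exact congrArg (fun g : R2 →+* R2 => g F) this

lemma toP_ofP (f : PP) : toP (ofP f) = f := by
  have : ((toP : R2 →+* PP).comp ofP) = RingHom.id PP := by
    apply Polynomial.ringHom_ext'
    · apply Polynomial.ringHom_ext'
      · ext a
        simp [ofP, toP, Polynomial.algebraMap_apply]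
      · simp [ofP, toP]
    · simp [ofP, toP]
  exact congrArg (fun g : PP →+* PP => g f) this

lemma toP_injective : Function.Injective toP :=
  Function.LeftInverse.injective ofP_toP

lemma toP_monomial (n : Fin 2 →₀ ℕ) (c : ℂ) :
    toP (monomial n c) = Polynomial.monomial (n 1) (Polynomial.monomial (n 0) c) := by
  rw [toP, aeval_monomial, Finsupp.prod_fintype _ _ (by intro i; simp), Fin.prod_univ_two]
  simp only [Matrix.cons_val_zero, Matrix.cons_val_one, ← Polynomial.C_mul_X_pow_eq_monomial,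
    map_mul, map_pow, Polynomial.algebraMap_apply,
    Polynomial.algebraMap_eq]
  ring

lemma coeff_toP (F : R2) (n : Fin 2 →₀ ℕ) :
    ((toP F).coeff (n 1)).coeff (n 0) = coeff n F := by
  classical
  induction F using MvPolynomial.induction_on' with
  | monomial m c =>
    rw [toP_monomial, Polynomial.coeff_monomial, coeff_monomial]
    by_cases h : m = n
    · subst h
      simp
    · rw [if_neg h]
      split_ifs with h1
      · rw [Polynomial.coeff_monomial, if_neg]
        intro h0
        apply h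
        ext i
        fin_cases i
        · exact h0
        · exact h1
      · simp
  | add p q hp hq =>
    rw [map_add, Polynomial.coeff_add, Polynomial.coeff_add, hp, hq, coeff_add]

/-- polynomials of total degree at most `t` -/
def W (t : ℕ) : Submodule ℂ PP where
  carrier := {f | ∀ i j, (f.coeff j).coeff i ≠ 0 → i + j ≤ t}
  add_mem' := by
    intro f g hf hg i j h
    rw [Polynomial.coeff_add, Polynomial.coeff_add] at h
    by_cases h1 : (f.coeff j).coeff i = 0
    · rw [h1, zero_add] at h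
      exact hg i j h
    · exact hf i j h1
  zero_mem' := by
    intro i j h
    simp at h
  smul_mem' := by
    intro c f hf i j h
    apply hf i j
    intro h0
    apply h
    rw [Polynomial.coeff_smul, Polynomial.coeff_smul, h0, smul_zero]

lemma mem_W {t : ℕ} {f : PP} : f ∈ W t ↔ ∀ i j, (f.coeff j).coeff i ≠ 0 → i + j ≤ t := Iff.rfl

lemma toP_mem_W {t : ℕ} {F : R2} : toP F ∈ W t ↔ wdeg 1 F ≤ t := by
  rw [mem_W, wdeg, Finset.sup_le_iff]
  constructor
  · intro h n hn
    rw [mem_support_iff, ← coeff_toP] at hn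
    have := h _ _ hn
    omega
  · intro h i j hij
    set n : Fin 2 →₀ ℕ := Finsupp.single 0 i + Finsupp.single 1 j with hn
    have h0 : n 0 = i := by simp [hn]
    have h1 : n 1 = j := by simp [hn]
    have h2 : n ∈ F.support := by
      rw [mem_support_iff, ← coeff_toP, h0, h1]
      exact hij
    have := h n h2
    rw [h0, h1] at this
    omega

lemma natDegree_toP (F : R2) : (toP F).natDegree = ydeg F := by
  apply le_antisymm
  · rw [Polynomial.natDegree_le_iff_coeff_eq_zero]
    intro N hN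
    ext i
    set n : Fin 2 →₀ ℕ := Finsupp.single 0 i + Finsupp.single 1 N with hn
    have h0 : n 0 = i := by simp [hn]
    have h1 : n 1 = N := by simp [hn]
    have h2 := coeff_toP F n
    rw [h0, h1] at h2
    rw [h2, Polynomial.coeff_zero]
    by_contra h3
    have h4 : n 1 ≤ degreeOf 1 F := le_degreeOf_of_mem_support 1 (mem_support_iff.mpr h3)
    rw [h1] at h4
    rw [ydeg] at hN
    omega
  · rw [ydeg, degreeOf_eq_sup]
    apply Finset.sup_le
    intro n hn
    apply Polynomial.le_natDegree_of_ne_zero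
    intro h
    rw [mem_support_iff, ← coeff_toP, h] at hn
    simp at hn

lemma W_mul {s t : ℕ} {f g : PP} (hf : f ∈ W s) (hg : g ∈ W t) : f * g ∈ W (s + t) := by
  rw [← toP_ofP f, ← toP_ofP g, ← map_mul, toP_mem_W]
  rw [← toP_ofP f, toP_mem_W] at hf
  rw [← toP_ofP g, toP_mem_W] at hg
  by_cases h1 : ofP f = 0
  · rw [h1, zero_mul]
    simp [wdeg]
  by_cases h2 : ofP g = 0
  · rw [h2, mul_zero]
    simp [wdeg]
  rw [wdeg_mul 1 h1 h2]
  omega

lemma W_mono {s t : ℕ} (h : s ≤ t) : W s ≤ W t := fun _ hf i j hij => (hf i j hij).trans h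

/-- division by a monic polynomial does not raise the degree -/
lemma W_div {E : PP} {e : ℕ} (hE : E.Monic) (he : E.natDegree = e) (hEW : E ∈ W e) (t : ℕ) :
    ∀ (n : ℕ) (f : PP), f.natDegree ≤ n → f ∈ W t →
      ∃ q r : PP, f = q * E + r ∧ r.degree < E.degree ∧ r ∈ W t ∧ (q = 0 ∨ q ∈ W (t - e)) := by
  intro n
  induction n with
  | zero =>
    intro f hf hft
    by_cases h : f.degree < E.degree
    · exact ⟨0, f, by simp, h, hft, Or.inl rfl⟩
    · -- `E` is constant
      have h0 : E.natDegree ≤ f.natDegree := by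
        rw [not_lt] at h
        exact Polynomial.natDegree_le_natDegree h
      have h1 : E = 1 := by
        rw [← hE.natDegree_eq_zero]
        omega
      refine ⟨f, 0, by rw [h1]; simp, ?_, Submodule.zero_mem _, Or.inr ?_⟩
      · rw [h1]
        simp
      · have : e = 0 := by rw [← he, h1]; simp
        rw [this]
        exact hft
  | succ n ih =>
    intro f hf hft
    by_cases h : f.degree < E.degree
    · exact ⟨0, f, by simp, h, hft, Or.inl rfl⟩
    · rw [not_lt] at h
      have h0 : E.natDegree ≤ f.natDegree := Polynomial.natDegree_le_natDegree h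
      set m : PP := Polynomial.C f.leadingCoeff * Polynomial.X ^ (f.natDegree - e) with hm
      have hf0 : f ≠ 0 := by
        rintro rfl
        rw [Polynomial.degree_zero, le_bot_iff, Polynomial.degree_eq_bot] at h
        exact hE.ne_zero h
      have hmt : m ∈ W (t - e) := by
        intro i j hij
        rw [hm, Polynomial.coeff_C_mul_X_pow] at hij
        split_ifs at hij with hj
        · have := hft i f.natDegree hij
          omega
        · simp at hij
      have het : e ≤ t := by
        obtain ⟨i, hi⟩ : ∃ i, (f.leadingCoeff).coeff i ≠ 0 := by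
          by_contra hcon
          push Not at hcon
          apply Polynomial.leadingCoeff_ne_zero.mpr hf0
          ext i
          rw [hcon i, Polynomial.coeff_zero]
        have := hft i f.natDegree hi
        omega
      have hft' : f - m * E ∈ W t := by
        apply Submodule.sub_mem _ hft
        have := W_mul hmt hEW
        rwa [Nat.sub_add_cancel het] at this
      have hdeg : (f - m * E).degree < f.degree := by
        have := Polynomial.div_wf_lemma ⟨h, hf0⟩ hE
        rw [hm, mul_comm]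
        rw [he] at this
        exact this
      by_cases h1 : f - m * E = 0
      · refine ⟨m, 0, ?_, ?_, Submodule.zero_mem _, Or.inr hmt⟩
        · rw [add_zero, ← sub_eq_zero, h1]
        · rw [Polynomial.degree_zero, bot_lt_iff_ne_bot, Ne, Polynomial.degree_eq_bot]
          exact hE.ne_zero
      have hnd : (f - m * E).natDegree ≤ n := by
        have := Polynomial.natDegree_lt_natDegree h1 hdeg
        omega
      obtain ⟨q, r, hq, hr, hrt, hqt⟩ := ih _ hnd hft'
      refine ⟨m + q, r, ?_, hr, hrt, Or.inr ?_⟩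
      · rw [add_mul, add_assoc, ← hq]
        ring
      · apply Submodule.add_mem _ hmt
        rcases hqt with rfl | hqt
        · exact Submodule.zero_mem _
        · exact hqt

/-- a polynomial of total degree `e` in which `Y ^ e` occurs -/
def YM (E : R2) : Prop := E ≠ 0 ∧ wdeg 1 E = ydeg E

lemma ydeg_le_wdeg (F : R2) : ydeg F ≤ wdeg 1 F := by
  rw [ydeg, degreeOf_eq_sup, wdeg]
  apply Finset.sup_mono_fun
  intro n _
  omega

lemma YM.mul {E F : R2} (hE : YM E) (hF : YM F) : YM (E * F) :=
  ⟨mul_ne_zero hE.1 hF.1, by rw [wdeg_mul 1 hE.1 hF.1, ydeg_mul hE.1 hF.1, hE.2, hF.2]⟩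

lemma YM.of_dvd {E F : R2} (h : YM F) (hd : E ∣ F) : YM E := by
  obtain ⟨G, rfl⟩ := hd
  have hE : E ≠ 0 := left_ne_zero_of_mul h.1
  have hG : G ≠ 0 := right_ne_zero_of_mul h.1
  refine ⟨hE, ?_⟩
  have h1 := h.2
  rw [wdeg_mul 1 hE hG, ydeg_mul hE hG] at h1
  have h2 := ydeg_le_wdeg E
  have h3 := ydeg_le_wdeg G
  omega

lemma YM.leadingCoeff {E : R2} (h : YM E) :
    ∃ c : ℂ, c ≠ 0 ∧ (toP E).leadingCoeff = Polynomial.C c := by
  have h1 : (toP E).leadingCoeff.natDegree ≤ 0 := by
    rw [Polynomial.natDegree_le_iff_coeff_eq_zero]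
    intro N hN
    by_contra hcon
    have h2 : toP E ∈ W (ydeg E) := toP_mem_W.mpr h.2.le
    have := h2 N _ hcon
    rw [natDegree_toP] at this
    omega
  rw [Nat.le_zero, Polynomial.natDegree_eq_zero] at h1
  obtain ⟨c, hc⟩ := h1
  refine ⟨c, ?_, hc.symm⟩
  rintro rfl
  rw [map_zero] at hc
  have := Polynomial.leadingCoeff_eq_zero.mp hc.symm
  exact h.1 (toP_injective (by rw [this, map_zero]))

lemma wdeg_C_mul {c : ℂ} (hc : c ≠ 0) (F : R2) : wdeg 1 (C c * F) = wdeg 1 F := by
  rw [wdeg, wdeg]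
  congr 1
  ext n
  simp [hc]

/-- division with control of the degree -/
theorem div_exists {E : R2} (hE : YM E) (he : 0 < ydeg E) (F : R2) :
    ∃ q r : R2, F = q * E + r ∧ ydeg r < ydeg E ∧ wdeg 1 r ≤ wdeg 1 F ∧
      wdeg 1 q ≤ wdeg 1 F - ydeg E := by
  obtain ⟨c, hc, hlc⟩ := hE.leadingCoeff
  set E' : PP := toP (C c⁻¹ * E) with hE'
  have hC0 : (C c⁻¹ : R2) ≠ 0 := by simpa using hc
  have hmon : E'.Monic := by
    rw [Polynomial.Monic, hE', map_mul, Polynomial.leadingCoeff_mul, hlc]
    have : toP (C c⁻¹) = Polynomial.C (Polynomial.C c⁻¹) := by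
      simp [toP, Polynomial.algebraMap_apply]
    rw [this, Polynomial.leadingCoeff_C, ← Polynomial.C_mul, inv_mul_cancel₀ hc, Polynomial.C_1]
  have hyE : ydeg (C c⁻¹ * E) = ydeg E := by
    rw [ydeg_mul hC0 hE.1]
    simp [ydeg]
  have hnd : E'.natDegree = ydeg E := by
    rw [hE', natDegree_toP, hyE]
  have hEW : E' ∈ W (ydeg E) := by
    rw [hE', toP_mem_W, wdeg_C_mul (inv_ne_zero hc), hE.2]
  obtain ⟨q, r, hq, hr, hrt, hqt⟩ := W_div hmon hnd hEW (wdeg 1 F) _ (toP F) le_rfl
    (toP_mem_W.mpr le_rfl)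
  refine ⟨ofP q * C c⁻¹, ofP r, ?_, ?_, ?_, ?_⟩
  · apply toP_injective
    rw [map_add, toP_ofP, mul_assoc, map_mul, toP_ofP, ← hE', ← hq]
  · rw [← natDegree_toP, toP_ofP, ← hnd]
    by_cases hr0 : r = 0
    · rw [hr0, Polynomial.natDegree_zero, hnd]
      exact he
    · exact Polynomial.natDegree_lt_natDegree hr0 hr
  · rw [← toP_mem_W, toP_ofP]
    exact hrt
  · rcases hqt with rfl | hqt
    · simp [wdeg]
    · rw [mul_comm, wdeg_C_mul (inv_ne_zero hc), ← toP_mem_W, toP_ofP]
      exact hqt

lemma eq_zero_of_dvd {E r : R2} (h : E ∣ r) (hr : ydeg r < ydeg E) : r = 0 := by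
  obtain ⟨q, rfl⟩ := h
  by_contra h0
  rw [ydeg_mul (left_ne_zero_of_mul h0) (right_ne_zero_of_mul h0)] at hr
  omega

/-- in a congruence `h = r G` modulo `E` with `G` free of `Y` the degree of `r` is controlled -/
theorem low_degree {E G h α β : R2} (hE : YM E) (he : 0 < ydeg E) (hG0 : G ≠ 0) (hG : ydeg G = 0)
    (hh : h = α * E + β * G) :
    ∃ r : R2, E ∣ h - r * G ∧ E ∣ β - r ∧ ydeg r < ydeg E ∧
      wdeg 1 r ≤ wdeg 1 h - wdeg 1 G := by
  obtain ⟨q, r, hq, hr, -, -⟩ := div_exists hE he β
  obtain ⟨q', r', hq', hr', hr'h, -⟩ := div_exists hE he h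
  have h1 : E ∣ h - r * G := ⟨α + q * G, by rw [hh]; linear_combination G * hq⟩
  refine ⟨r, h1, ⟨q, by rw [hq]; ring⟩, hr, ?_⟩
  have h2 : E ∣ r' - r * G := by
    have : r' - r * G = (h - r * G) - q' * E := by rw [hq']; ring
    rw [this]
    exact dvd_sub h1 (Dvd.intro_left _ rfl)
  by_cases hr0 : r = 0
  · rw [hr0]
    simp [wdeg]
  have hyr : ydeg (r * G) < ydeg E := by
    rw [ydeg_mul hr0 hG0, hG]
    omega
  have h3 : ydeg (r' - r * G) < ydeg E := by
    rw [ydeg] at *
    refine lt_of_le_of_lt (degreeOf_sub_le 1 _ _) ?_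
    exact max_lt hr' hyr
  have h4 := eq_zero_of_dvd h2 h3
  rw [sub_eq_zero] at h4
  rw [h4, wdeg_mul 1 hr0 hG0] at hr'h
  omega

end Pool.Agent.helper1.KV
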