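import Pool.Agent.helper1.KV.Div

/-!
# Duality for the complete intersection `ℂ[X, Y] / (D, G)`, `D` monic in `Y`, `G` free of `Y`
-/

set_option autoImplicit false

open Pool.Agent.helper5.NBS

namespace Pool.Agent.helper1.KV

open Polynomial

/-- the monomial `X ^ i Y ^ j` -/
noncomputable def mon (i j : ℕ) : PP := monomial j (monomial i 1)

lemma mon_mul (i j i' j' : ℕ) : mon i j * mon i' j' = mon (i + i') (j + j') := by
  rw [mon, mon, mon, monomial_mul_monomial, monomial_mul_monomial, one_mul]

lemma coeff_mon (i j i' j' : ℕ) :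
    ((mon i j).coeff j').coeff i' = if j = j' ∧ i = i' then 1 else 0 := by
  rw [mon, coeff_monomial]
  by_cases h : j = j'
  · rw [if_pos h, coeff_monomial]
    by_cases h' : i = i'
    · rw [if_pos h', if_pos ⟨h, h'⟩]
    · rw [if_neg h', if_neg (fun h2 => h' h2.2)]
  · rw [if_neg h, if_neg (fun h2 => h h2.1), coeff_zero]

lemma mon_mem_W (i j : ℕ) : mon i j ∈ W (i + j) := by
  intro i' j' h
  rw [coeff_mon] at h
  split_ifs at h with h1
  · omega
  · exact absurd rfl h

/-- the dualising functional -/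
noncomputable def tau (D : PP) (g : ℂ[X]) (a b : ℕ) : PP →ₗ[ℂ] ℂ where
  toFun f := (((f %ₘ D).coeff (a - 1)) %ₘ g).coeff (b - 1)
  map_add' f f' := by
    rw [add_modByMonic, coeff_add, add_modByMonic, coeff_add]
  map_smul' c f := by
    have h1 : c • f = (C c : ℂ[X]) • f := by
      ext j i
      simp
    rw [h1, smul_modByMonic, coeff_smul, smul_eq_mul, ← smul_eq_C_mul, smul_modByMonic, coeff_smul]
    rfl

variable {D : PP} {g : ℂ[X]} {a b : ℕ}

lemma tau_apply (f : PP) : tau D g a b f = (((f %ₘ D).coeff (a - 1)) %ₘ g).coeff (b - 1) := rfl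

lemma tau_D (hD : D.Monic) (f : PP) : tau D g a b (D * f) = 0 := by
  rw [tau_apply, self_mul_modByMonic hD]
  simp

lemma tau_g (hg : g.Monic) (f : PP) : tau D g a b (C g * f) = 0 := by
  rw [tau_apply, ← smul_eq_C_mul, smul_modByMonic, coeff_smul, smul_eq_mul,
    self_mul_modByMonic hg, coeff_zero]

lemma tau_low (hD : D.Monic) (hDa : D.natDegree = a) (hDW : D ∈ W a) (hg : g.Monic)
    (hgb : g.natDegree = b) {t : ℕ} (ht : t + 3 ≤ a + b) (ha : 0 < a) {f : PP} (hf : f ∈ W t) :
    tau D g a b f = 0 := by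
  obtain ⟨q, r, hq, hr, hrt, -⟩ := W_div hD hDa hDW t _ f le_rfl hf
  have h1 : f %ₘ D = r := by
    exact (div_modByMonic_unique (f := f) q r hD ⟨by rw [hq]; ring, hr⟩).2
  rw [tau_apply, h1]
  by_cases h2 : r.coeff (a - 1) = 0
  · rw [h2]
    simp
  have h3 : (r.coeff (a - 1)).coeff (r.coeff (a - 1)).natDegree ≠ 0 := by
    rw [coeff_natDegree]
    exact leadingCoeff_ne_zero.mpr h2
  have h4 := hrt _ _ h3
  have h5 : (r.coeff (a - 1)) %ₘ g = r.coeff (a - 1) := by
    rw [modByMonic_eq_self_iff hg]
    apply degree_lt_degree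
    omega
  rw [h5]
  apply coeff_eq_zero_of_natDegree_lt
  omega

lemma tau_mon_lt (hD : D.Monic) (hDa : D.natDegree = a) {i j : ℕ} (hj : j < a - 1) :
    tau D g a b (mon i j) = 0 := by
  have h1 : (mon i j) %ₘ D = mon i j := by
    rw [modByMonic_eq_self_iff hD]
    apply degree_lt_degree
    rw [mon]
    refine lt_of_le_of_lt (natDegree_monomial_le _) ?_
    omega
  rw [tau_apply, h1, mon, coeff_monomial, if_neg (by omega)]
  simp

lemma tau_mon_top (hD : D.Monic) (hDa : D.natDegree = a) (hg : g.Monic)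
    (hgb : g.natDegree = b) (ha : 0 < a) (hb : 0 < b) :
    tau D g a b (mon (b - 1) (a - 1)) = 1 := by
  have h1 : (mon (b - 1) (a - 1)) %ₘ D = mon (b - 1) (a - 1) := by
    rw [modByMonic_eq_self_iff hD]
    apply degree_lt_degree
    rw [mon]
    refine lt_of_le_of_lt (natDegree_monomial_le _) ?_
    omega
  have h2 : (monomial (b - 1) 1 : ℂ[X]) %ₘ g = monomial (b - 1) 1 := by
    rw [modByMonic_eq_self_iff hg]
    apply degree_lt_degree
    refine lt_of_le_of_lt (natDegree_monomial_le _) ?_
    omega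
  rw [tau_apply, h1, mon, coeff_monomial, if_pos rfl, h2, coeff_monomial, if_pos rfl]

/-- reduced polynomials -/
def Red (a b : ℕ) (A : PP) : Prop := ∀ i j, (A.coeff j).coeff i ≠ 0 → i < b ∧ j < a

lemma Red.sum {A : PP} (h : Red a b A) :
    A = ∑ j ∈ Finset.range a, ∑ i ∈ Finset.range b, ((A.coeff j).coeff i) • mon i j := by
  ext j' i'
  rw [finsetSum_coeff, finsetSum_coeff]
  simp only [finsetSum_coeff, coeff_smul, coeff_mon, smul_eq_mul, mul_ite, mul_one, mul_zero]
  by_cases h0 : (A.coeff j').coeff i' = 0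
  · rw [h0]
    symm
    apply Finset.sum_eq_zero
    intro j _
    apply Finset.sum_eq_zero
    intro i _
    split_ifs with h1
    · rw [h1.1, h1.2, h0]
    · rfl
  · obtain ⟨h1, h2⟩ := h _ _ h0
    rw [Finset.sum_eq_single j', Finset.sum_eq_single i']
    · rw [if_pos ⟨rfl, rfl⟩]
    · intro i _ hi
      rw [if_neg (fun h3 => hi h3.2)]
    · intro h3
      exact absurd (Finset.mem_range.mpr h1) h3
    · intro j _ hj
      apply Finset.sum_eq_zero
      intro i _
      rw [if_neg (fun h3 => hj h3.1)]
    · intro h3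
      exact absurd (Finset.mem_range.mpr h2) h3

/-- every polynomial is congruent to a reduced one, with control of the degree -/
lemma exists_red (hD : D.Monic) (hDa : D.natDegree = a) (hDW : D ∈ W a) (hg : g.Monic)
    (hgb : g.natDegree = b) {k : ℕ} {A : PP} (hA : ∀ i j, (A.coeff j).coeff i ≠ 0 → i + j < k) :
    ∃ A' : PP, A - A' ∈ Ideal.span {D, C g} ∧ Red a b A' ∧
      ∀ i j, (A'.coeff j).coeff i ≠ 0 → i + j < k := by
  rcases Nat.eq_zero_or_pos k with rfl | hk
  · have : A = 0 := by
      ext j i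
      by_contra h
      have := hA i j h
      omega
    exact ⟨0, by rw [this]; simp, fun i j h => by simp at h, fun i j h => by simp at h⟩
  obtain ⟨t, rfl⟩ : ∃ t, k = t + 1 := ⟨k - 1, by omega⟩
  have hAt : A ∈ W t := fun i j h => by have := hA i j h; omega
  obtain ⟨q, r, hq, hr, hrt, -⟩ := W_div hD hDa hDW t _ A le_rfl hAt
  set A' : PP := ∑ j ∈ Finset.range a, C (r.coeff j %ₘ g) * X ^ j with hA'
  have hc : ∀ j, A'.coeff j = if j < a then r.coeff j %ₘ g else 0 := by
    intro j
    rw [hA', finsetSum_coeff]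
    simp only [coeff_C_mul_X_pow]
    split_ifs with h
    · rw [Finset.sum_eq_single j]
      · simp
      · intro i _ hi
        rw [if_neg (Ne.symm hi)]
      · intro h3
        exact absurd (Finset.mem_range.mpr h) h3
    · apply Finset.sum_eq_zero
      intro i hi
      rw [Finset.mem_range] at hi
      rw [if_neg (by omega)]
  have hra : r = ∑ j ∈ Finset.range a, C (r.coeff j) * X ^ j := by
    by_cases hr0 : r = 0
    · rw [hr0]
      simp
    · apply as_sum_range_C_mul_X_pow' 
      rw [← hDa]
      exact natDegree_lt_natDegree hr0 hr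
  refine ⟨A', ?_, ?_, ?_⟩
  · have h1 : r - A' = C g * ∑ j ∈ Finset.range a, C (r.coeff j /ₘ g) * X ^ j := by
      conv_lhs => rw [hra]
      rw [hA', ← Finset.sum_sub_distrib, Finset.mul_sum]
      apply Finset.sum_congr rfl
      intro j _
      have := modByMonic_add_div (r.coeff j) g
      conv_lhs => rw [← this]
      simp only [map_add, map_mul]
      have h3 : r.coeff j %ₘ g + g * (r.coeff j /ₘ g) = r.coeff j := this
      rw [h3]
      ring
    have h2 : A - A' = q * D + C g * ∑ j ∈ Finset.range a, C (r.coeff j /ₘ g) * X ^ j := by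
      rw [← h1, hq]
      ring
    rw [h2, mul_comm (C g), Ideal.mem_span_pair]
    exact ⟨_, _, rfl⟩
  · intro i j h
    rw [hc] at h
    split_ifs at h with hj
    · refine ⟨?_, hj⟩
      by_contra hi
      apply h
      apply coeff_eq_zero_of_natDegree_lt
      by_cases hg1 : g = 1
      · rw [hg1] at h
        simp at h
      have := natDegree_modByMonic_lt (r.coeff j) hg hg1
      omega
    · simp at h
  · intro i j h
    rw [hc] at h
    split_ifs at h with hj
    · have h1 : i ≤ (r.coeff j %ₘ g).natDegree := le_natDegree_of_ne_zero h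
      have h2 := natDegree_modByMonic_le (r.coeff j) hg
      have h3 : r.coeff j ≠ 0 := by
        intro h4
        rw [h4] at h
        simp at h
      have h4 : (r.coeff j).coeff (r.coeff j).natDegree ≠ 0 := by
        rw [coeff_natDegree]
        exact leadingCoeff_ne_zero.mpr h3
      have h5 := hrt _ _ h4
      have : (r.coeff j %ₘ g).natDegree ≤ (r.coeff j).natDegree := by
        by_cases hg1 : (r.coeff j).natDegree < g.natDegree
        · rw [(modByMonic_eq_self_iff hg).mpr (degree_lt_degree hg1)]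
        · by_cases hg2 : g = 1
          · rw [hg2]
            simp
          have := natDegree_modByMonic_lt (r.coeff j) hg hg2
          omega
      omega
    · simp at h

/-- non-degeneracy in degree `k` -/
lemma red_step (hD : D.Monic) (hDa : D.natDegree = a) (hDW : D ∈ W a) (hg : g.Monic)
    (hgb : g.natDegree = b) (ha : 0 < a) (hb : 0 < b) {k : ℕ} {A : PP} (hred : Red a b A)
    (hk : ∀ i j, (A.coeff j).coeff i ≠ 0 → i + j < k + 1)
    (h : ∀ i j, i < b → j < a → i + j = k →
      tau D g a b (A * mon (b - 1 - i) (a - 1 - j)) = 0) :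
    ∀ i j, (A.coeff j).coeff i ≠ 0 → i + j < k := by
  have key : ∀ m j i, j + m = a → i + j = k → (A.coeff j).coeff i = 0 := by
    intro m
    induction m using Nat.strong_induction_on with
    | _ m ih =>
      intro j i hjm hij
      by_contra hne
      obtain ⟨hib, hja⟩ := hred i j hne
      have h1 := h i j hib hja hij
      apply hne
      rw [hred.sum, Finset.sum_mul, map_sum] at h1
      simp only [Finset.sum_mul, map_sum, smul_mul_assoc, map_smul, mon_mul, smul_eq_mul] at h1
      rw [Finset.sum_eq_single j, Finset.sum_eq_single i] at h1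
      · have e1 : i + (b - 1 - i) = b - 1 := by omega
        have e2 : j + (a - 1 - j) = a - 1 := by omega
        rw [e1, e2, tau_mon_top hD hDa hg hgb ha hb, mul_one] at h1
        exact h1
      · intro i' hi' hne'
        rw [Finset.mem_range] at hi'
        by_cases h0 : (A.coeff j).coeff i' = 0
        · rw [h0, zero_mul]
        have h2 := hk _ _ h0
        rw [tau_low hD hDa hDW hg hgb (t := i' + (b - 1 - i) + (j + (a - 1 - j))) (by omega) ha
          (mon_mem_W _ _), mul_zero]
      · intro h2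
        exact absurd (Finset.mem_range.mpr hib) h2
      · intro j' hj' hne'
        rw [Finset.mem_range] at hj'
        apply Finset.sum_eq_zero
        intro i' hi'
        rw [Finset.mem_range] at hi'
        by_cases h0 : (A.coeff j').coeff i' = 0
        · rw [h0, zero_mul]
        have h2 := hk _ _ h0
        rcases Nat.lt_or_ge (i' + j') k with h3 | h3
        · rw [tau_low hD hDa hDW hg hgb (t := i' + (b - 1 - i) + (j' + (a - 1 - j))) (by omega) ha
            (mon_mem_W _ _), mul_zero]
        · have h4 : i' + j' = k := by omega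
          rcases Nat.lt_or_ge j' j with h5 | h5
          · rw [tau_mon_lt hD hDa (by omega), mul_zero]
          · exfalso
            apply h0
            exact ih (a - j') (by omega) j' i' (by omega) h4
      · intro h2
        exact absurd (Finset.mem_range.mpr hja) h2
  intro i j hne
  have h1 := hk i j hne
  by_contra h2
  apply hne
  obtain ⟨-, hja⟩ := hred i j hne
  exact key (a - j) j i (by omega) (by omega)

/-- descending induction on the degree -/
lemma red_desc (hD : D.Monic) (hDa : D.natDegree = a) (hDW : D ∈ W a) (hg : g.Monic)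
    (hgb : g.natDegree = b) (ha : 0 < a) (hb : 0 < b) {A : PP} {s : ℕ}
    (h : ∀ f ∈ W s, tau D g a b (A * f) = 0) (K : ℕ) :
    ∀ k, a + b ≤ s + k + 2 → k ≤ K → (∃ A' : PP, A - A' ∈ Ideal.span {D, C g} ∧
      ∀ i j, (A'.coeff j).coeff i ≠ 0 → i + j < K) →
      ∃ A' : PP, A - A' ∈ Ideal.span {D, C g} ∧
        ∀ i j, (A'.coeff j).coeff i ≠ 0 → i + j < k := by
  induction K with
  | zero =>
    intro k _ hk hA
    rw [Nat.le_zero] at hk
    rw [hk]
    exact hA
  | succ K ih =>
    intro k hks hk hA
    rcases Nat.lt_or_ge K k with h1 | h1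
    · have : k = K + 1 := by omega
      rw [this]
      exact hA
    apply ih k hks h1
    obtain ⟨A₁, hA₁, hA₁K⟩ := hA
    obtain ⟨A', hA', hred, hA'K⟩ := exists_red hD hDa hDW hg hgb hA₁K
    have hAA' : A - A' ∈ Ideal.span {D, C g} := by
      have := Ideal.add_mem _ hA₁ hA'
      rwa [sub_add_sub_cancel] at this
    refine ⟨A', hAA', ?_⟩
    apply red_step hD hDa hDW hg hgb ha hb hred hA'K
    intro i j hi hj hij
    obtain ⟨u, v, huv⟩ := Ideal.mem_span_pair.mp hAA'
    have h2 : A' * mon (b - 1 - i) (a - 1 - j) = A * mon (b - 1 - i) (a - 1 - j) -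
        D * (u * mon (b - 1 - i) (a - 1 - j)) - C g * (v * mon (b - 1 - i) (a - 1 - j)) := by
      linear_combination mon (b - 1 - i) (a - 1 - j) * huv
    rw [h2, map_sub, map_sub, tau_D hD, tau_g hg, sub_zero, sub_zero]
    apply h
    exact W_mono (by omega) (mon_mem_W _ _)

lemma exists_W (A : PP) : ∃ K, ∀ i j, (A.coeff j).coeff i ≠ 0 → i + j < K := by
  refine ⟨wdeg 1 (ofP A) + 1, fun i j h => ?_⟩
  have h1 : A ∈ W (wdeg 1 (ofP A)) := by
    rw [← toP_ofP A, toP_mem_W, toP_ofP]
  exact Nat.lt_succ_of_le (h1 i j h)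

/-- non-degeneracy -/
theorem nondeg (hD : D.Monic) (hDa : D.natDegree = a) (hDW : D ∈ W a) (hg : g.Monic)
    (hgb : g.natDegree = b) (ha : 0 < a) (hb : 0 < b) {A : PP}
    (h : ∀ f, tau D g a b (A * f) = 0) : A ∈ Ideal.span {D, C g} := by
  obtain ⟨K, hK⟩ := exists_W A
  obtain ⟨A', hA', hk⟩ := red_desc hD hDa hDW hg hgb ha hb (s := a + b) (fun f _ => h f) K 0
    (by omega) (by omega) ⟨A, by simp, hK⟩
  have : A' = 0 := by
    ext j i
    by_contra h1
    have := hk i j h1
    omega
  rwa [this, sub_zero] at hA'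

theorem nondeg_deg (hD : D.Monic) (hDa : D.natDegree = a) (hDW : D ∈ W a) (hg : g.Monic)
    (hgb : g.natDegree = b) (hb : 0 < b) {A : PP} {d : ℕ} (had : a = d + 3)
    (h : ∀ f ∈ W d, tau D g a b (A * f) = 0) :
    ∃ A' ∈ W b, A - A' ∈ Ideal.span {D, C g} := by
  obtain ⟨K, hK⟩ := exists_W A
  obtain ⟨A', hA', hk⟩ := red_desc hD hDa hDW hg hgb (by omega) hb (s := d) h (max K (b + 1))
    (b + 1) (by omega) (le_max_right _ _) ⟨A, by simp, fun i j hij =>
      lt_of_lt_of_le (hK i j hij) (le_max_left _ _)⟩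
  exact ⟨A', fun i j hij => Nat.le_of_lt_succ (hk i j hij), hA'⟩

end Pool.Agent.helper1.KV
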