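import Pool.Agent.helper1.KV.Count

/-!
# The first component
-/

set_option autoImplicit false
set_option linter.unusedSectionVars false

open MvPolynomial Pool.Agent.helper5.NBS

namespace Pool.Agent.helper1.KV

/-- a sequence in a finite dimensional space satisfies a linear relation -/
lemma exists_rel {V : Type*} [AddCommGroup V] [Module ℂ V] [FiniteDimensional ℂ V] (r : ℕ → V) :
    ∃ (s : Finset ℕ) (c : ℕ → ℂ), ∑ n ∈ s, c n • r n = 0 ∧ ∃ n ∈ s, c n ≠ 0 := by
  have h : ¬ LinearIndependent ℂ r := by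
    intro hr
    have := hr.finite
    exact not_finite ℕ
  exact not_linearIndependent_iff.mp h

theorem first {E A G f₀ : R2} (hE : Prime E) (hYM : YM E) (he : 0 < ydeg E) (hG0 : G ≠ 0)
    (hG : ydeg G = 0) (hA : wdeg 1 A ≤ wdeg 1 G) (hf₀ : ¬ E ∣ f₀)
    (hpow : ∀ n, ∃ β, E ∣ A ^ n * f₀ - β * G ^ n) : ∃ c : ℂ, E ∣ A - C c * G := by
  classical
  have hEG : ¬ E ∣ G := by
    intro h
    exact hG0 (eq_zero_of_dvd h (by omega))
  set s := wdeg 1 f₀ with hs
  have hr : ∀ n, ∃ r : R2, r ∈ Vt s ∧ E ∣ A ^ n * f₀ - r * G ^ n := by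
    intro n
    obtain ⟨β, α, hα⟩ := hpow n
    obtain ⟨r, hr1, -, hr2, hr3⟩ := low_degree (G := G ^ n) hYM he (pow_ne_zero n hG0)
      (ydeg_pow_eq_zero hG0 hG n) (h := A ^ n * f₀) (α := α) (β := β)
      (by linear_combination hα)
    refine ⟨r, ?_, hr1⟩
    rw [mem_Vt]
    have h6 := wdeg_mul_le (A ^ n) f₀
    have h7 := wdeg_pow_le A n
    rw [wdeg_pow hG0] at hr3
    have h8 : n * wdeg 1 A ≤ n * wdeg 1 G := Nat.mul_le_mul_left _ hA
    omega
  choose r hrV hrE using hr
  obtain ⟨S, c, hsum, n₀, hn₀, hc⟩ := exists_rel (fun n => (⟨r n, hrV n⟩ : Vt s))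
  have hsum' : ∑ n ∈ S, C (c n) * r n = 0 := by
    have := congrArg (Submodule.subtype _) hsum
    rw [map_sum, map_zero] at this
    simpa [smul_eq_C_mul] using this
  have hprime : (Ideal.span {E}).IsPrime := (Ideal.span_singleton_prime hE.ne_zero).mpr hE
  let Q := R2 ⧸ Ideal.span {E}
  let K := FractionRing Q
  let π : R2 →ₐ[ℂ] K := (IsScalarTower.toAlgHom ℂ Q K).comp (Ideal.Quotient.mkₐ ℂ (Ideal.span {E}))
  have hπ0 : ∀ F, π F = 0 ↔ E ∣ F := by
    intro F
    have h1 : π F = algebraMap Q K (Ideal.Quotient.mk _ F) := rfl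
    rw [h1, map_eq_zero_iff _ (IsFractionRing.injective Q K), Ideal.Quotient.eq_zero_iff_mem,
      Ideal.mem_span_singleton]
  have hπG : π G ≠ 0 := fun h => hEG ((hπ0 _).mp h)
  have hπf : π f₀ ≠ 0 := fun h => hf₀ ((hπ0 _).mp h)
  set φ : K := π A / π G with hφ
  have hrφ : ∀ n, π (r n) = φ ^ n * π f₀ := by
    intro n
    have h1 := (hπ0 _).mpr (hrE n)
    rw [map_sub, map_mul, map_mul, map_pow, map_pow, sub_eq_zero] at h1
    rw [hφ, div_pow, div_mul_eq_mul_div, h1, mul_div_assoc, div_self (pow_ne_zero _ hπG), mul_one]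
  have halg : IsAlgebraic ℂ φ := by
    refine ⟨∑ n ∈ S, Polynomial.monomial n (c n), ?_, ?_⟩
    · intro h0
      have h1 := congrArg (fun q => Polynomial.coeff q n₀) h0
      simp only [Polynomial.finsetSum_coeff, Polynomial.coeff_monomial, Polynomial.coeff_zero] at h1
      rw [Finset.sum_ite_eq' S n₀ c, if_pos hn₀] at h1
      exact hc h1
    · rw [map_sum]
      have h1 : ∑ n ∈ S, (Polynomial.aeval φ) (Polynomial.monomial n (c n)) * π f₀ = 0 := by
        have h2 := congrArg π hsum'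
        rw [map_sum, map_zero] at h2
        rw [← h2]
        apply Finset.sum_congr rfl
        intro n _
        rw [Polynomial.aeval_monomial, map_mul, hrφ, mul_assoc]
        congr 1
      rw [← Finset.sum_mul] at h1
      exact (mul_eq_zero.mp h1).resolve_right hπf
  have hint : IsIntegral ℂ φ := halg.isIntegral
  obtain ⟨z, hz⟩ := minpoly.mem_range_of_degree_eq_one ℂ φ
    (IsAlgClosed.degree_eq_one_of_irreducible ℂ (minpoly.irreducible hint))
  refine ⟨z, ?_⟩
  rw [← hπ0, map_sub, map_mul, sub_eq_zero]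
  have h1 : π (C z) = algebraMap ℂ K z := π.commutes z
  rw [h1, hz, hφ, div_mul_cancel₀ _ hπG]

end Pool.Agent.helper1.KV
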