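import Pool.Agent.helper1.KV.Loc

/-!
# The local lemma at several points, and powers
-/

set_option autoImplicit false
set_option linter.unusedSectionVars false

open MvPolynomial Pool.Agent.helper5.NBS

namespace Pool.Agent.helper1.KV

variable {ι : Type*} [Fintype ι] [DecidableEq ι]

/-- polynomials with multiplicity at least `c l` at `p l` -/
noncomputable def Jd (p : ι → Fin 2 → ℂ) (c : ι → ℕ) : Ideal R2 := ∏ l, ptIdeal (p l) ^ c l

lemma Jd_add (p : ι → Fin 2 → ℂ) (c c' : ι → ℕ) :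
    Jd p (fun l => c l + c' l) = Jd p c * Jd p c' := by
  simp only [Jd, pow_add, Finset.prod_mul_distrib]

lemma Jd_nsmul (p : ι → Fin 2 → ℂ) (c : ι → ℕ) (n : ℕ) :
    Jd p (fun l => n * c l) = Jd p c ^ n := by
  rw [Jd, Jd, ← Finset.prod_pow]
  apply Finset.prod_congr rfl
  intro l _
  rw [← pow_mul, mul_comm]

lemma mem_Jd {p : ι → Fin 2 → ℂ} (hp : Function.Injective p) {c : ι → ℕ} {F : R2} :
    F ∈ Jd p c ↔ ∀ l, F ∈ ptIdeal (p l) ^ c l := by
  rw [Jd, Ideal.prod_eq_iInf_of_pairwise_isCoprime]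
  · simp
  · intro i _ j _ hij
    exact (ptIdeal_coprime (hp.ne hij)).pow

lemma mem_of_mul_mem {p : Fin 2 → ℂ} {h F : R2} {m : ℕ} (hh : h ∉ ptIdeal p)
    (hF : h * F ∈ ptIdeal p ^ m) : F ∈ ptIdeal p ^ m := by
  by_cases hF0 : F = 0
  · rw [hF0]
    exact Ideal.zero_mem _
  have hh0 : h ≠ 0 := by
    rintro rfl
    exact hh (Ideal.zero_mem _)
  have h1 : mult p h = 0 := by
    by_contra h2
    apply hh
    have : h ∈ ptIdeal p ^ 1 := (mem_pow_iff_le_mult hh0).mpr (by omega)
    rwa [pow_one] at this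
  rw [mem_pow_iff_le_mult (mul_ne_zero hh0 hF0), mult_mul hh0 hF0, h1, zero_add] at hF
  exact (mem_pow_iff_le_mult hF0).mpr hF

lemma sub_mem_ptIdeal (p : Fin 2 → ℂ) (i : Fin 2) : (X i - C (p i) : R2) ∈ ptIdeal p :=
  Ideal.subset_span ⟨i, rfl⟩

lemma pow_rep (p : Fin 2 → ℂ) (T : ℕ) : ∀ f ∈ ptIdeal p ^ T, ∃ c : ℕ → R2,
    f = ∑ i ∈ Finset.range (T + 1), c i * ((X 0 - C (p 0)) ^ i * (X 1 - C (p 1)) ^ (T - i)) := by
  induction T with
  | zero =>
    intro f _
    exact ⟨fun _ => f, by simp⟩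
  | succ T ih =>
    intro f hf
    rw [pow_succ] at hf
    induction hf using Submodule.mul_induction_on' with
    | mem_mul_mem m hm n hn =>
      obtain ⟨c, hc⟩ := ih m hm
      rw [ptIdeal, Ideal.mem_span_range_iff_exists_fun] at hn
      obtain ⟨u, hu⟩ := hn
      rw [Fin.sum_univ_two] at hu
      refine ⟨fun i => (if i = 0 then 0 else u 0 * c (i - 1)) +
        (if i = T + 1 then 0 else u 1 * c i), ?_⟩
      have h1 : ∑ i ∈ Finset.range (T + 1 + 1), ((if i = 0 then 0 else u 0 * c (i - 1)) +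
          (if i = T + 1 then 0 else u 1 * c i)) *
            ((X 0 - C (p 0) : R2) ^ i * (X 1 - C (p 1)) ^ (T + 1 - i)) =
          ∑ i ∈ Finset.range (T + 1), u 0 * c i *
            ((X 0 - C (p 0) : R2) ^ (i + 1) * (X 1 - C (p 1)) ^ (T - i)) +
          ∑ i ∈ Finset.range (T + 1), u 1 * c i *
            ((X 0 - C (p 0) : R2) ^ i * (X 1 - C (p 1)) ^ (T + 1 - i)) := by
        simp only [add_mul, Finset.sum_add_distrib]
        congr 1
        · rw [Finset.sum_range_succ']
          simp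
        · rw [Finset.sum_range_succ]
          simp only [if_true, zero_mul, add_zero]
          apply Finset.sum_congr rfl
          intro i hi
          rw [Finset.mem_range] at hi
          rw [if_neg (by omega)]
      rw [h1, ← hu, hc, Finset.sum_mul, ← Finset.sum_add_distrib]
      apply Finset.sum_congr rfl
      intro i hi
      rw [Finset.mem_range] at hi
      have h2 : T + 1 - i = (T - i) + 1 := by omega
      rw [h2, pow_succ, pow_succ]
      ring
    | add f _ g _ hf hg =>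
      obtain ⟨c, hc⟩ := hf
      obtain ⟨c', hc'⟩ := hg
      refine ⟨fun i => c i + c' i, ?_⟩
      simp only [add_mul, Finset.sum_add_distrib]
      rw [← hc, ← hc']

/-- a polynomial vanishing to given orders at the other points, but not at `p l` -/
lemma exists_sep {p : ι → Fin 2 → ℂ} (hp : Function.Injective p) (T : ι → ℕ) (l : ι) :
    ∃ h : R2, h ∉ ptIdeal (p l) ∧ ∀ j, j ≠ l → h ∈ ptIdeal (p j) ^ T j := by
  have h1 : ∀ j, ∃ g : R2, j ≠ l → g ∈ ptIdeal (p j) ∧ g ∉ ptIdeal (p l) := by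
    intro j
    by_cases hj : j = l
    · exact ⟨0, fun h => absurd hj h⟩
    · obtain ⟨i, hi⟩ := Function.ne_iff.mp (hp.ne hj)
      refine ⟨X i - C (p j i), fun _ => ⟨sub_mem_ptIdeal _ _, ?_⟩⟩
      rw [mem_ptIdeal_iff]
      simp only [map_sub, eval_X, eval_C]
      exact sub_ne_zero.mpr (Ne.symm hi)
  choose g hg using h1
  refine ⟨∏ j ∈ Finset.univ.erase l, g j ^ T j, ?_, ?_⟩
  · rw [mem_ptIdeal_iff, map_prod, Finset.prod_eq_zero_iff]
    rintro ⟨j, hj, hj0⟩
    rw [map_pow] at hj0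
    have h2 := eq_zero_of_pow_eq_zero hj0
    exact (hg j (Finset.ne_of_mem_erase hj)).2 (mem_ptIdeal_iff.mpr h2)
  · intro j hj
    rw [← Finset.mul_prod_erase _ _ (Finset.mem_erase.mpr ⟨hj, Finset.mem_univ j⟩)]
    exact Ideal.mul_mem_right _ _ (Ideal.pow_mem_pow (hg j hj).1 _)

/-- the local lemma at several points -/
theorem glob {p : ι → Fin 2 → ℂ} (hp : Function.Injective p) {A D G : R2}
    (hDG : ∀ x, D ∣ G * x → D ∣ x) {μ k : ι → ℕ}
    (hD : ∀ l, 2 ≤ μ l → D ∈ ptIdeal (p l) ^ μ l)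
    (hA : ∀ f ∈ Jd p (fun l => μ l - 1 + k l), ∃ α β, A * f = α * D + β * G)
    {f α β : R2} (hf : f ∈ Jd p (fun l => μ l - 1 + k l)) (h : A * f = α * D + β * G) :
    β ∈ Jd p (fun l => μ l - 1) := by
  rw [mem_Jd hp]
  intro l
  by_cases hl : 2 ≤ μ l
  swap
  · have : μ l - 1 = 0 := by omega
    rw [this, pow_zero]
    rw [Ideal.one_eq_top]
    exact Submodule.mem_top
  obtain ⟨g, hgl, hg⟩ := exists_sep hp (fun l => μ l - 1 + k l) l
  set T := μ l - 1 + k l with hT
  set x : R2 := X 0 - C (p l 0) with hx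
  set y : R2 := X 1 - C (p l 1) with hy
  have hxm : x ∈ ptIdeal (p l) := sub_mem_ptIdeal _ _
  have hym : y ∈ ptIdeal (p l) := sub_mem_ptIdeal _ _
  have he : ∀ i, g * (x ^ i * y ^ (T - i)) ∈ Jd p (fun l => μ l - 1 + k l) := by
    intro i
    rw [mem_Jd hp]
    intro j
    by_cases hj : j = l
    · subst hj
      apply Ideal.mul_mem_left
      have h1 : x ^ i * y ^ (T - i) ∈ ptIdeal (p j) ^ (i + (T - i)) := by
        rw [pow_add]
        exact Ideal.mul_mem_mul (Ideal.pow_mem_pow hxm _) (Ideal.pow_mem_pow hym _)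
      exact Ideal.pow_le_pow_right (by omega) h1
    · exact Ideal.mul_mem_right _ _ (hg j hj)
  choose a b hab using fun i => hA _ (he i)
  have hb : ∀ i ≤ T, b i ∈ ptIdeal (p l) ^ (μ l - 1) := by
    apply local_lemma (T := T) (μ := μ l) (by omega) b (hD l hl)
    intro i hi
    apply hDG
    refine ⟨x * a i - y * a (i + 1), ?_⟩
    have h1 := hab i
    have h2 := hab (i + 1)
    have h3 : T - i = (T - (i + 1)) + 1 := by omega
    rw [h3, pow_succ] at h1
    rw [pow_succ] at h2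
    linear_combination x * h1 - y * h2
  obtain ⟨c, hc⟩ := pow_rep (p l) T f ((mem_Jd hp).mp hf l)
  have h1 : D ∣ g * β - ∑ i ∈ Finset.range (T + 1), c i * b i := by
    apply hDG
    refine ⟨∑ i ∈ Finset.range (T + 1), c i * a i - g * α, ?_⟩
    have h2 : A * (g * f) = ∑ i ∈ Finset.range (T + 1), c i * (a i * D + b i * G) := by
      rw [hc, Finset.mul_sum, Finset.mul_sum]
      apply Finset.sum_congr rfl
      intro i _
      rw [← hab i]
      ring
    have h3 : ∑ i ∈ Finset.range (T + 1), c i * (a i * D + b i * G) =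
        (∑ i ∈ Finset.range (T + 1), c i * a i) * D +
        (∑ i ∈ Finset.range (T + 1), c i * b i) * G := by
      rw [Finset.sum_mul, Finset.sum_mul, ← Finset.sum_add_distrib]
      apply Finset.sum_congr rfl
      intro i _
      ring
    rw [h3] at h2
    linear_combination h2 - g * h
  have h2 : g * β - ∑ i ∈ Finset.range (T + 1), c i * b i ∈ ptIdeal (p l) ^ (μ l - 1) := by
    obtain ⟨w, hw⟩ := h1
    rw [hw]
    apply Ideal.mul_mem_right
    exact Ideal.pow_le_pow_right (by omega) (hD l hl)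
  have h3 : ∑ i ∈ Finset.range (T + 1), c i * b i ∈ ptIdeal (p l) ^ (μ l - 1) := by
    apply Ideal.sum_mem
    intro i hi
    rw [Finset.mem_range] at hi
    exact Ideal.mul_mem_left _ _ (hb i (by omega))
  apply mem_of_mul_mem hgl
  have := Ideal.add_mem _ h2 h3
  rwa [sub_add_cancel] at this

/-- powers -/
theorem powers {p : ι → Fin 2 → ℂ} (hp : Function.Injective p) {A D G : R2}
    (hDG : ∀ x, D ∣ G * x → D ∣ x) {μ k : ι → ℕ}
    (hD : ∀ l, 2 ≤ μ l → D ∈ ptIdeal (p l) ^ μ l)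
    (hA : ∀ f ∈ Jd p (fun l => μ l - 1 + k l), ∃ α β, A * f = α * D + β * G) (n : ℕ) :
    ∀ f ∈ Jd p (fun l => μ l - 1 + n * k l), ∃ β ∈ Jd p (fun l => μ l - 1),
      D ∣ A ^ n * f - β * G ^ n := by
  induction n with
  | zero =>
    intro f hf
    refine ⟨f, ?_, by simp⟩
    simpa using hf
  | succ n ih =>
    intro f hf
    have h1 : Jd p (fun l => μ l - 1 + (n + 1) * k l) =
        Jd p (fun l => μ l - 1 + n * k l) * Jd p k := by
      rw [← Jd_add]
      congr 1
      funext l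
      ring
    rw [h1] at hf
    induction hf using Submodule.mul_induction_on' with
    | mem_mul_mem m hm g hg =>
      obtain ⟨β, hβ, hβD⟩ := ih m hm
      have h2 : β * g ∈ Jd p (fun l => μ l - 1 + k l) := by
        rw [Jd_add]
        exact Ideal.mul_mem_mul hβ hg
      obtain ⟨α', β', hαβ⟩ := hA _ h2
      refine ⟨β', glob hp hDG hD hA h2 hαβ, ?_⟩
      have h3 : A ^ (n + 1) * (m * g) - β' * G ^ (n + 1) =
          A * g * (A ^ n * m - β * G ^ n) + G ^ n * α' * D := by
        linear_combination G ^ n * hαβ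
      rw [h3]
      exact dvd_add (Dvd.dvd.mul_left hβD _) (Dvd.intro_left _ rfl)
    | add f _ g _ hf hg =>
      obtain ⟨β, hβ, hβD⟩ := hf
      obtain ⟨β', hβ', hβD'⟩ := hg
      refine ⟨β + β', Ideal.add_mem _ hβ hβ', ?_⟩
      have : A ^ (n + 1) * (f + g) - (β + β') * G ^ (n + 1) =
        (A ^ (n + 1) * f - β * G ^ (n + 1)) + (A ^ (n + 1) * g - β' * G ^ (n + 1)) := by ring
      rw [this]
      exact dvd_add hβD hβD'

end Pool.Agent.helper1.KV
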