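import Pool.Agent.helper1.KV.Div

/-!
# The local lemma
-/

set_option autoImplicit false

open MvPolynomial Pool.Agent.helper5.NBS

namespace Pool.Agent.helper1.KV

/-- exponent vector -/
noncomputable def ex (u v : ℕ) : Fin 2 →₀ ℕ := Finsupp.single 0 u + Finsupp.single 1 v

lemma ex_zero (u v : ℕ) : ex u v 0 = u := by simp [ex]
lemma ex_one (u v : ℕ) : ex u v 1 = v := by simp [ex]

lemma ex_degree (u v : ℕ) : (ex u v).degree = u + v := by
  rw [degree_eq, ex_zero, ex_one]

lemma eq_ex (n : Fin 2 →₀ ℕ) : n = ex (n 0) (n 1) := by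
  ext i
  fin_cases i
  · exact (ex_zero _ _).symm
  · exact (ex_one _ _).symm

lemma coeff_X0_mul_zero (v : ℕ) (F : R2) : coeff (ex 0 v) (X 0 * F) = 0 := by
  classical
  rw [coeff_X_mul', if_neg]
  simp [ex_zero]

lemma coeff_X0_mul_succ (u v : ℕ) (F : R2) : coeff (ex (u + 1) v) (X 0 * F) = coeff (ex u v) F := by
  have : ex (u + 1) v = Finsupp.single 0 1 + ex u v := by
    rw [ex, ex, ← add_assoc, ← Finsupp.single_add, add_comm 1 u]
  rw [this, coeff_X_mul]

lemma coeff_X1_mul_zero (u : ℕ) (F : R2) : coeff (ex u 0) (X 1 * F) = 0 := by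
  classical
  rw [coeff_X_mul', if_neg]
  simp [ex_one]

lemma coeff_X1_mul_succ (u v : ℕ) (F : R2) : coeff (ex u (v + 1)) (X 1 * F) = coeff (ex u v) F := by
  have : ex u (v + 1) = Finsupp.single 1 1 + ex u v := by
    rw [ex, ex, add_left_comm, ← Finsupp.single_add, add_comm 1 v]
  rw [this, coeff_X_mul]

/-- the local lemma at the origin -/
lemma local_aux {T μ : ℕ} (hμ : μ ≤ T + 1) (b : ℕ → R2) (D : R2)
    (hD : ∀ n : Fin 2 →₀ ℕ, n.degree < μ → coeff n D = 0)
    (hb : ∀ i < T, D ∣ X 1 * b (i + 1) - X 0 * b i) :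
    ∀ s, s ≤ μ - 1 → ∀ i ≤ T, ∀ n : Fin 2 →₀ ℕ, n.degree < s → coeff n (b i) = 0 := by
  intro s
  induction s with
  | zero => intro _ i _ n hn; omega
  | succ s ih =>
    intro hs
    have ih' := ih (by omega)
    -- coefficients of the relation in degree `s + 1`
    have hrel : ∀ i < T, ∀ n : Fin 2 →₀ ℕ, n.degree < s + 2 →
        coeff n (X 1 * b (i + 1)) = coeff n (X 0 * b i) := by
      intro i hi n hn
      obtain ⟨g, hg⟩ := hb i hi
      have h1 : coeff n (D * g) = 0 := by
        classical
        rw [coeff_mul]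
        apply Finset.sum_eq_zero
        intro x hx
        rw [Finset.HasAntidiagonal.mem_antidiagonal] at hx
        have h2 : x.1.degree ≤ n.degree := by
          rw [← hx, map_add]
          exact Nat.le_add_right _ _
        rw [hD x.1 (by omega), zero_mul]
      rw [← hg, coeff_sub, sub_eq_zero] at h1
      exact h1
    have h1 : ∀ i < T, coeff (ex s 0) (b i) = 0 := by
      intro i hi
      have := hrel i hi (ex (s + 1) 0) (by rw [ex_degree]; omega)
      rw [coeff_X1_mul_zero, coeff_X0_mul_succ] at this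
      exact this.symm
    have h2 : ∀ i < T, coeff (ex 0 s) (b (i + 1)) = 0 := by
      intro i hi
      have := hrel i hi (ex 0 (s + 1)) (by rw [ex_degree]; omega)
      rw [coeff_X1_mul_succ, coeff_X0_mul_zero] at this
      exact this
    have h3 : ∀ i < T, ∀ u v, u + v + 1 = s →
        coeff (ex (u + 1) v) (b (i + 1)) = coeff (ex u (v + 1)) (b i) := by
      intro i hi u v huv
      have := hrel i hi (ex (u + 1) (v + 1)) (by rw [ex_degree]; omega)
      rw [coeff_X1_mul_succ, coeff_X0_mul_succ] at this
      exact this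
    -- going down
    have h4 : ∀ u v i, u + v = s → u < i → i ≤ T → coeff (ex u v) (b i) = 0 := by
      intro u
      induction u with
      | zero =>
        intro v i huv hi hiT
        obtain ⟨j, rfl⟩ : ∃ j, i = j + 1 := ⟨i - 1, by omega⟩
        have : v = s := by omega
        rw [this]
        exact h2 j (by omega)
      | succ u ihu =>
        intro v i huv hi hiT
        obtain ⟨j, rfl⟩ : ∃ j, i = j + 1 := ⟨i - 1, by omega⟩
        rw [h3 j (by omega) u v (by omega)]
        exact ihu (v + 1) j (by omega) (by omega) (by omega)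
    -- going up
    have h5 : ∀ v u i, u + v = s → i + v < T → coeff (ex u v) (b i) = 0 := by
      intro v
      induction v with
      | zero =>
        intro u i huv hi
        have : u = s := by omega
        rw [this]
        exact h1 i (by omega)
      | succ v ihv =>
        intro u i huv hi
        rw [← h3 i (by omega) u v (by omega)]
        exact ihv (u + 1) (i + 1) (by omega) (by omega)
    intro i hi n hn
    rcases Nat.lt_or_ge n.degree s with h | h
    · exact ih' i hi n h
    · have hns : n 0 + n 1 = s := by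
        rw [← degree_eq]
        omega
      rw [eq_ex n]
      by_cases h6 : n 0 < i
      · exact h4 _ _ i hns h6 hi
      · exact h5 _ _ i hns (by omega)

/-- the local lemma -/
theorem local_lemma {p : Fin 2 → ℂ} {T μ : ℕ} (hμ : μ ≤ T + 1) (b : ℕ → R2) {D : R2}
    (hD : D ∈ ptIdeal p ^ μ)
    (hb : ∀ i < T, D ∣ (X 1 - C (p 1)) * b (i + 1) - (X 0 - C (p 0)) * b i) :
    ∀ i ≤ T, b i ∈ ptIdeal p ^ (μ - 1) := by
  intro i hi
  rw [mem_ptIdeal_pow]
  rw [mem_ptIdeal_pow] at hD
  apply local_aux hμ (fun i => trans p (b i)) (trans p D) hD _ (μ - 1) le_rfl i hi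
  intro j hj
  have := map_dvd (trans p) (hb j hj)
  simpa [trans_X, trans_C, map_sub, map_mul] using this

end Pool.Agent.helper1.KV
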