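import Pool.Agent.helper1.KV.First
import Pool.Agent.helper1.KV.CI

/-!
# Vanishing for fat points in the plane
-/

set_option autoImplicit false
set_option linter.unusedSectionVars false

open MvPolynomial Pool.Agent.helper5.NBS

namespace Pool.Agent.helper1.KV

variable {ι : Type*} [Fintype ι] [DecidableEq ι]

/-- the numerical part: connectedness of nef and big classes -/
lemma numerics {a b : ℕ} (ha : 0 < a) (hb : 0 < b) (M c κ : ι → ℕ)
    (hM : ∀ l, c l + κ l = M l) (h1 : ∑ l, M l * c l ≤ (a + b) * b)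
    (h2 : ∑ l, M l * κ l ≤ (a + b) * a) (h3 : ∑ l, M l ^ 2 < (a + b) ^ 2) :
    ∑ l, c l * κ l < a * b := by
  by_contra hcon
  push Not at hcon
  have e1 : ∑ l, M l * c l = ∑ l, c l ^ 2 + ∑ l, c l * κ l := by
    rw [← Finset.sum_add_distrib]
    apply Finset.sum_congr rfl
    intro l _
    rw [← hM l]
    ring
  have e2 : ∑ l, M l * κ l = ∑ l, κ l ^ 2 + ∑ l, c l * κ l := by
    rw [← Finset.sum_add_distrib]
    apply Finset.sum_congr rfl
    intro l _
    rw [← hM l]
    ring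
  have e3 : ∑ l, M l ^ 2 = ∑ l, c l ^ 2 + ∑ l, κ l ^ 2 + 2 * ∑ l, c l * κ l := by
    rw [Finset.mul_sum, ← Finset.sum_add_distrib, ← Finset.sum_add_distrib]
    apply Finset.sum_congr rfl
    intro l _
    rw [← hM l]
    ring
  have e4 : (∑ l, c l * κ l) ^ 2 ≤ (∑ l, c l ^ 2) * ∑ l, κ l ^ 2 :=
    Finset.sum_mul_sq_le_sq_mul_sq _ _ _
  rw [e1] at h1
  rw [e2] at h2
  rw [e3] at h3
  set P := ∑ l, c l ^ 2
  set Q := ∑ l, κ l ^ 2
  set S := ∑ l, c l * κ l
  have hP : P ≤ b ^ 2 := by nlinarith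
  have hQ : Q ≤ a ^ 2 := by nlinarith
  have hlt : P < b ^ 2 ∨ Q < a ^ 2 := by
    by_contra h
    push Not at h
    nlinarith [h.1, h.2]
  have hPQ : P * Q < (a * b) ^ 2 := by
    rcases hlt with h | h
    · calc P * Q ≤ P * a ^ 2 := Nat.mul_le_mul_left _ hQ
        _ < b ^ 2 * a ^ 2 := Nat.mul_lt_mul_of_pos_right h (by positivity)
        _ = (a * b) ^ 2 := by ring
    · calc P * Q ≤ b ^ 2 * Q := Nat.mul_le_mul_right _ hP
        _ < b ^ 2 * a ^ 2 := Nat.mul_lt_mul_of_pos_left h (by positivity)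
        _ = (a * b) ^ 2 := by ring
  have h5 : (a * b) ^ 2 ≤ S ^ 2 := Nat.pow_le_pow_left hcon 2
  omega

lemma ydeg_pos_of_irreducible {E D : R2} (hD : YM D) (hE : Irreducible E) (h : E ∣ D) :
    0 < ydeg E := by
  have hYM := hD.of_dvd h
  rw [← hYM.2]
  by_contra h0
  have h1 : wdeg 1 E = 0 := by omega
  apply hE.not_isUnit
  have h2 : E = C (coeff 0 E) := by
    ext n
    rw [coeff_C]
    split_ifs with hn
    · rw [hn]
    · by_contra h3
      have h4 : n 0 + 1 * n 1 ≤ wdeg 1 E :=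
        Finset.le_sup (f := fun n : Fin 2 →₀ ℕ => n 0 + 1 * n 1) (mem_support_iff.mpr h3)
      apply hn
      ext i
      fin_cases i
      · simp; omega
      · simp; omega
  rw [h2]
  have h3 : coeff 0 E ≠ 0 := by
    intro h3
    rw [h3, map_zero] at h2
    exact hYM.1 h2
  exact (isUnit_iff_ne_zero.mpr h3).map C

lemma isUnit_of_wdeg {E : R2} (hE : E ≠ 0) (h : wdeg 1 E = 0) : IsUnit E := by
  have h2 : E = C (coeff 0 E) := by
    ext n
    rw [coeff_C]
    split_ifs with hn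
    · rw [hn]
    · by_contra h3
      have h4 : n 0 + 1 * n 1 ≤ wdeg 1 E :=
        Finset.le_sup (f := fun n : Fin 2 →₀ ℕ => n 0 + 1 * n 1) (mem_support_iff.mpr h3)
      apply hn
      ext i
      fin_cases i
      · simp; omega
      · simp; omega
  rw [h2]
  have h3 : coeff 0 E ≠ 0 := by
    intro h3
    rw [h3, map_zero] at h2
    exact hE h2
  exact (isUnit_iff_ne_zero.mpr h3).map C

/-- a polynomial monic in `Y` is coprime to a polynomial in `X` -/
lemma dvd_of_dvd_G_mul {D G : R2} (hD : YM D) (hG0 : G ≠ 0) (hG : ydeg G = 0) {x : R2}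
    (h : D ∣ G * x) : D ∣ x := by
  have hrel : IsRelPrime D G := by
    intro u hu1 hu2
    have h1 := hD.of_dvd hu1
    apply isUnit_of_wdeg h1.1
    rw [h1.2]
    obtain ⟨v, rfl⟩ := hu2
    rw [ydeg_mul (left_ne_zero_of_mul hG0) (right_ne_zero_of_mul hG0)] at hG
    omega
  exact hrel.dvd_of_dvd_mul_left h

/-- some component of `D''` meets `D'` outside of the base points -/
lemma exists_component {p : ι → Fin 2 → ℂ} {δ : ℕ} {k : ι → ℕ} (F : R2) (hF0 : F ≠ 0)
    (h : ∀ E, Irreducible E → E ∣ F → wdeg 1 E * δ ≤ ∑ l, mult (p l) E * k l) :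
    wdeg 1 F * δ ≤ ∑ l, mult (p l) F * k l := by
  induction F using WfDvdMonoid.induction_on_irreducible with
  | zero => exact absurd rfl hF0
  | unit u hu =>
    have : wdeg 1 u = 0 := by
      obtain ⟨v, hv⟩ := hu.exists_right_inv
      have hv0 : v ≠ 0 := by
        rintro rfl
        rw [mul_zero] at hv
        exact zero_ne_one hv
      have h1 := wdeg_mul 1 hu.ne_zero hv0
      rw [hv] at h1
      have h2 : wdeg 1 (1 : R2) = 0 := by simp [wdeg]
      omega
    rw [this, zero_mul]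
    exact Nat.zero_le _
  | mul F E hF hE ih =>
    have h1 := ih hF (fun E' hE' hd => h E' hE' (hd.mul_left E))
    have h2 := h E hE (dvd_mul_right E F)
    rw [wdeg_mul 1 hE.ne_zero hF, add_mul]
    have h3 : ∑ l, mult (p l) (E * F) * k l =
        ∑ l, mult (p l) E * k l + ∑ l, mult (p l) F * k l := by
      rw [← Finset.sum_add_distrib]
      apply Finset.sum_congr rfl
      intro l _
      rw [mult_mul hE.ne_zero hF, add_mul]
    rw [h3]
    exact Nat.add_le_add h2 h1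

/-- the multiplicities used for a factor -/
noncomputable def mu (p : ι → Fin 2 → ℂ) (T : ι → ℕ) (D : R2) (l : ι) : ℕ :=
  max (min (mult (p l) D) (T l + 1)) 1

lemma mu_le (p : ι → Fin 2 → ℂ) (T : ι → ℕ) (D : R2) (l : ι) : mu p T D l ≤ T l + 1 := by
  rw [mu]
  omega

lemma one_le_mu (p : ι → Fin 2 → ℂ) (T : ι → ℕ) (D : R2) (l : ι) : 1 ≤ mu p T D l := by
  rw [mu]
  omega

lemma mem_mu {p : ι → Fin 2 → ℂ} {T : ι → ℕ} {D : R2} (hD : D ≠ 0) (l : ι)
    (h : 2 ≤ mu p T D l) : D ∈ ptIdeal (p l) ^ mu p T D l := by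
  rw [mem_pow_iff_le_mult hD]
  rw [mu] at h ⊢
  omega

/-- the induction -/
theorem strip {p : ι → Fin 2 → ℂ} (hp : Function.Injective p) {T : ι → ℕ} {d : ℕ} {D G : R2}
    (hD : YM D) (hDa : ydeg D = d + 3) (hDT : ∀ l, D ∈ ptIdeal (p l) ^ (T l + 1))
    (hG0 : G ≠ 0) (hG : ydeg G = 0)
    (hnef : ∀ F : R2, F ≠ 0 → ∑ l, (T l + 1) * mult (p l) F ≤ (d + 3) * wdeg 1 F)
    (hbig : ∑ l, (T l + 1) ^ 2 < (d + 3) ^ 2) (A : R2) (hAb : wdeg 1 A ≤ wdeg 1 G)
    (hA : ∀ f ∈ Jd p T, ∃ α β, A * f = α * D + β * G) (n : ℕ) :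
    ∀ D₁ D₂ A₂ : R2, D = D₁ * D₂ → 0 < ydeg D₁ → A = D₁ * A₂ → ydeg D₂ ≤ n → D₂ ∣ A₂ := by
  induction n with
  | zero =>
    intro D₁ D₂ A₂ h1 h2 h3 h4
    have h5 : YM D₂ := hD.of_dvd ⟨D₁, by rw [h1]; ring⟩
    have h6 : IsUnit D₂ := isUnit_of_wdeg h5.1 (by rw [h5.2]; omega)
    exact h6.dvd
  | succ n ih =>
    intro D₁ D₂ A₂ h1 h2 h3 h4
    have hY1 : YM D₁ := hD.of_dvd ⟨D₂, h1⟩
    have hY2 : YM D₂ := hD.of_dvd ⟨D₁, by rw [h1]; ring⟩
    by_cases hA20 : A₂ = 0
    · rw [hA20]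
      exact dvd_zero _
    by_cases h5 : ydeg D₂ = 0
    · exact (isUnit_of_wdeg hY2.1 (by rw [hY2.2]; omega)).dvd
    set μ := mu p T D₂ with hμ
    set k : ι → ℕ := fun l => T l + 1 - μ l with hk
    have hμk : ∀ l, μ l - 1 + k l = T l := by
      intro l
      have := mu_le p T D₂ l
      have := one_le_mu p T D₂ l
      simp only [hk, hμ]
      omega
    have hab : ydeg D₁ + ydeg D₂ = d + 3 := by
      rw [← hDa, h1, ydeg_mul hY1.1 hY2.1]
    -- a component with negative intersection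
    have hcomp : ∃ E, Irreducible E ∧ E ∣ D₂ ∧
        ∑ l, mult (p l) E * k l < wdeg 1 E * ydeg D₁ := by
      by_contra hcon
      push Not at hcon
      have h6 := exists_component (p := p) (δ := ydeg D₁) (k := k) D₂ hY2.1 hcon
      set c : ι → ℕ := fun l => min (mult (p l) D₂) (T l + 1) with hc
      have h7 : ∑ l, mult (p l) D₂ * k l = ∑ l, c l * (T l + 1 - c l) := by
        apply Finset.sum_congr rfl
        intro l _
        simp only [hk, hμ, mu, hc]
        rcases Nat.lt_or_ge (mult (p l) D₂) (T l + 1) with h | h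
        · rw [min_eq_left h.le]
          rcases Nat.eq_zero_or_pos (mult (p l) D₂) with h0 | h0
          · rw [h0]
            simp
          · rw [max_eq_left h0]
        · rw [min_eq_right h, max_eq_left (by omega)]
          simp
      rw [h7, hY2.2] at h6
      have h8 := numerics (a := ydeg D₁) (b := ydeg D₂) h2 (by omega) (fun l => T l + 1) c
        (fun l => T l + 1 - c l) (by intro l; simp only [hc]; omega) (by
          rw [hab]
          refine le_trans (Finset.sum_le_sum fun l _ => ?_) (by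
            rw [← hY2.2]; exact hnef D₂ hY2.1)
          exact Nat.mul_le_mul_left _ (min_le_left _ _)) (by
          rw [hab]
          refine le_trans (Finset.sum_le_sum fun l _ => ?_) (by
            rw [← hY1.2]; exact hnef D₁ hY1.1)
          apply Nat.mul_le_mul_left
          have h9 : T l + 1 ≤ mult (p l) D := (mem_pow_iff_le_mult hD.1).mp (hDT l)
          rw [h1, mult_mul hY1.1 hY2.1] at h9
          simp only [hc]
          omega) (by rw [hab]; exact hbig)
      rw [mul_comm (ydeg D₂)] at h6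
      omega
    obtain ⟨E, hE, hED, hEk⟩ := hcomp
    have hEY : YM E := hY2.of_dvd hED
    have hEpos : 0 < ydeg E := ydeg_pos_of_irreducible hY2 hE hED
    have hEprime : Prime E := hE.prime
    -- the relation for `A₂`
    have hA₂ : ∀ f ∈ Jd p (fun l => μ l - 1 + k l), ∃ α β, A₂ * f = α * D₂ + β * G := by
      intro f hf
      have hTT : (fun l => μ l - 1 + k l) = T := funext hμk
      rw [hTT] at hf
      obtain ⟨α, β, hαβ⟩ := hA f hf
      have h6 : D₁ ∣ G * β := ⟨A₂ * f - α * D₂, by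
        rw [h1, h3] at hαβ
        linear_combination -hαβ⟩
      obtain ⟨β', hβ'⟩ := dvd_of_dvd_G_mul hY1 hG0 hG h6
      refine ⟨α, β', ?_⟩
      apply mul_left_cancel₀ hY1.1
      rw [h1, h3, hβ'] at hαβ
      linear_combination hαβ
    have hpow := powers hp (A := A₂) (D := D₂) (G := G)
      (fun x hx => dvd_of_dvd_G_mul hY2 hG0 hG hx) (μ := μ) (k := k)
      (fun l hl => mem_mu hY2.1 l hl) hA₂
    have hA₂b : wdeg 1 A₂ + ydeg D₁ ≤ wdeg 1 G := by
      have : wdeg 1 A = wdeg 1 D₁ + wdeg 1 A₂ := by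
        rw [h3, wdeg_mul 1 hY1.1 hA20]
      rw [hY1.2] at this
      omega
    have hdvd : E ∣ A₂ := by
      refine count hp hEprime hEY hEpos hG0 hG hA₂b (m := fun l => μ l - 1) (k := k) ?_ ?_
      · intro n f hf
        obtain ⟨β, -, hβ⟩ := hpow n f hf
        exact ⟨β, hED.trans hβ⟩
      · rw [← hEY.2]
        exact hEk
    obtain ⟨D₃, rfl⟩ := hED
    obtain ⟨A₃, rfl⟩ := hdvd
    have h10 : D₃ ≠ 0 := right_ne_zero_of_mul hY2.1
    have h11 := ih (D₁ * E) D₃ A₃ (by rw [h1]; ring) (by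
      rw [ydeg_mul hY1.1 hE.ne_zero]; omega) (by rw [h3]; ring) (by
      rw [ydeg_mul hE.ne_zero h10] at h4; omega)
    exact mul_dvd_mul_left E h11

lemma ydeg_G {y : ι → ℂ} (T : ι → ℕ) : ydeg (∏ l, (X 0 - C (y l) : R2) ^ T l) = 0 := by
  have h1 : ∀ l, (X 0 - C (y l) : R2) ≠ 0 := by
    intro l h
    have h5 := congrArg (eval (fun _ : Fin 2 => y l + 1)) h
    simp at h5
  have h2 : ∀ l, ydeg (X 0 - C (y l) : R2) = 0 := by
    intro l
    have h3 : ydeg (X 0 - C (y l) : R2) ≤ max (ydeg (X 0 : R2)) (ydeg (C (y l) : R2)) :=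
      degreeOf_sub_le _ _ _
    have h4 : ydeg (X 0 : R2) = 0 := by simp [ydeg, degreeOf_X]
    have h5 : ydeg (C (y l) : R2) = 0 := by simp [ydeg]
    omega
  have h3 : ∀ s : Finset ι, (∏ l ∈ s, (X 0 - C (y l) : R2) ^ T l) ≠ 0 ∧
      ydeg (∏ l ∈ s, (X 0 - C (y l) : R2) ^ T l) = 0 := by
    intro s
    induction s using Finset.induction_on with
    | empty => simp [ydeg]
    | insert a s ha ih =>
      rw [Finset.prod_insert ha]
      refine ⟨mul_ne_zero (pow_ne_zero _ (h1 a)) ih.1, ?_⟩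
      rw [ydeg_mul (pow_ne_zero _ (h1 a)) ih.1, ydeg_pow_eq_zero (h1 a) (h2 a), ih.2]
  exact (h3 _).2

open Polynomial in
/-- the polynomial `∏ (X - y l) ^ T l` -/
noncomputable def gp (y : ι → ℂ) (T : ι → ℕ) : ℂ[X] := ∏ l, (Polynomial.X - Polynomial.C (y l)) ^ T l

lemma gp_monic (y : ι → ℂ) (T : ι → ℕ) : (gp y T).Monic :=
  Polynomial.monic_prod_of_monic _ _ fun _ _ => (Polynomial.monic_X_sub_C _).pow _

lemma ofP_gp (y : ι → ℂ) (T : ι → ℕ) :
    ofP (Polynomial.C (gp y T)) = ∏ l, (X 0 - C (y l) : R2) ^ T l := by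
  rw [gp, map_prod, map_prod]
  apply Finset.prod_congr rfl
  intro l _
  rw [map_pow, map_pow]
  congr 1
  simp [ofP]

/-- Vanishing theorem for fat points, in good coordinates. -/
theorem kv_YM {p : ι → Fin 2 → ℂ} (hp : Function.Injective p) {T : ι → ℕ} {d : ℕ} {D : R2}
    (hD : YM D) (hDa : ydeg D = d + 3) (hDT : ∀ l, D ∈ ptIdeal (p l) ^ (T l + 1))
    (hnef : ∀ F : R2, F ≠ 0 → ∑ l, (T l + 1) * mult (p l) F ≤ (d + 3) * wdeg 1 F)
    (hbig : ∑ l, (T l + 1) ^ 2 < (d + 3) ^ 2) (c : ι → R2) :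
    ∃ f : R2, wdeg 1 f ≤ d ∧ ∀ l, f - c l ∈ ptIdeal (p l) ^ T l := by
  classical
  by_contra hcon
  set g := gp (fun l => p l 0) T with hg
  set G : R2 := ofP (Polynomial.C g) with hGdef
  have hGp : G = ∏ l, (X 0 - C (p l 0) : R2) ^ T l := ofP_gp _ _
  have hG0 : G ≠ 0 := by
    intro h
    have h1 : toP G = 0 := by rw [h, map_zero]
    rw [hGdef, toP_ofP, Polynomial.C_eq_zero] at h1
    exact (gp_monic _ T).ne_zero h1
  have hGy : ydeg G = 0 := by rw [hGp]; exact ydeg_G T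
  have hGJ : G ∈ Jd p T := by
    rw [mem_Jd hp]
    intro l
    rw [hGp, ← Finset.mul_prod_erase _ _ (Finset.mem_univ l)]
    exact Ideal.mul_mem_right _ _ (Ideal.pow_mem_pow (sub_mem_ptIdeal _ _) _)
  have hDJ : D ∈ Jd p T := by
    rw [mem_Jd hp]
    exact fun l => Ideal.pow_le_pow_right (Nat.le_succ _) (hDT l)
  have hGw : wdeg 1 G = g.natDegree := by
    apply le_antisymm
    · rw [← toP_mem_W, hGdef, toP_ofP]
      intro i j h
      rw [Polynomial.coeff_C] at h
      split_ifs at h with hj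
      · have := Polynomial.le_natDegree_of_ne_zero h
        omega
      · simp at h
    · have h1 : toP G ∈ W (wdeg 1 G) := toP_mem_W.mpr le_rfl
      rw [hGdef, toP_ofP] at h1
      have h2 := h1 g.natDegree 0 (by
        rw [Polynomial.coeff_C_zero, Polynomial.coeff_natDegree, (gp_monic _ T).leadingCoeff]
        exact one_ne_zero)
      rw [hGdef]
      omega
  -- a functional on the jets
  have hne : (Vt d).map (jet p T) ≠ ⊤ := by
    intro htop
    apply hcon
    have h1 : jet p T (Classical.choose (crt hp T c)) ∈ (Vt d).map (jet p T) := by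
      rw [htop]; exact Submodule.mem_top
    obtain ⟨f, hf, hfe⟩ := h1
    refine ⟨f, mem_Vt.mp hf, fun l => ?_⟩
    have h2 := Classical.choose_spec (crt hp T c) l
    have h3 : f - Classical.choose (crt hp T c) ∈ ptIdeal (p l) ^ T l := by
      rw [← Ideal.Quotient.mk_eq_mk_iff_sub_mem]
      exact congrFun hfe l
    have := Ideal.add_mem _ h3 h2
    rwa [sub_add_sub_cancel] at this
  obtain ⟨φ, hφ0, hφ⟩ := Submodule.exists_le_ker_of_lt_top _ (lt_top_iff_ne_top.mpr hne)
  set lam : R2 →ₗ[ℂ] ℂ := φ ∘ₗ jet p T with hlam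
  have hlamJ : ∀ f ∈ Jd p T, lam f = 0 := by
    intro f hf
    have h1 : f ∈ LinearMap.ker (jet p T) := by
      rw [ker_jet hp]; exact hf
    rw [hlam, LinearMap.comp_apply, LinearMap.mem_ker.mp h1, map_zero]
  have hlamd : ∀ f, wdeg 1 f ≤ d → lam f = 0 := by
    intro f hf
    have h1 : jet p T f ∈ LinearMap.ker φ := hφ ⟨f, mem_Vt.mpr hf, rfl⟩
    exact h1
  have hlam0 : lam ≠ 0 := by
    intro h
    apply hφ0
    refine LinearMap.ext fun x => ?_
    obtain ⟨f, rfl⟩ := jet_surjective hp T x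
    exact LinearMap.congr_fun h f
  obtain ⟨A, hAb, hA, hAf⟩ := ci hD hDa (gp_monic (fun l => p l 0) T) rfl lam
    (fun f => hlamJ _ (Ideal.mul_mem_right _ _ hDJ))
    (fun f => hlamJ _ (Ideal.mul_mem_right _ _ hGJ)) hlamd hlam0
  have hAJ : ∀ f ∈ Jd p T, ∃ α β, A * f = α * D + β * G := by
    intro f hf
    obtain ⟨u, v, huv⟩ := Ideal.mem_span_pair.mp
      (hAf f (fun g' => hlamJ _ (Ideal.mul_mem_right _ _ hf)))
    exact ⟨u, v, huv.symm⟩
  -- the first component
  have hDnu : ¬ IsUnit D := by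
    intro hu
    obtain ⟨v, hv⟩ := hu.exists_right_inv
    have hv0 : v ≠ 0 := by
      rintro rfl
      rw [mul_zero] at hv
      exact zero_ne_one hv
    have h1 := ydeg_mul hD.1 hv0
    rw [hv] at h1
    have h2 : ydeg (1 : R2) = 0 := by simp [ydeg]
    omega
  obtain ⟨E, hE, hED⟩ := WfDvdMonoid.exists_irreducible_factor hDnu hD.1
  have hEY : YM E := hD.of_dvd hED
  have hEpos : 0 < ydeg E := ydeg_pos_of_irreducible hD hE hED
  have hpow := powers hp (A := A) (D := D) (G := G)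
    (fun x hx => dvd_of_dvd_G_mul hD hG0 hGy hx) (μ := fun l => T l + 1) (k := fun _ => 0)
    (fun l _ => hDT l) (by
      intro f hf
      apply hAJ f
      simpa using hf)
  -- an element of `J` which is not divisible by `E`
  have hf₀ : ¬ E ∣ G := by
    intro h
    exact hG0 (eq_zero_of_dvd h (by omega))
  obtain ⟨z, hz⟩ := first (A := A) (G := G) (f₀ := G) hE.prime hEY hEpos hG0 hGy (by rw [hGw]; exact hAb) hf₀ (by
    intro n
    obtain ⟨β, -, hβ⟩ := hpow n G (by simpa using hGJ)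
    exact ⟨β, hED.trans hβ⟩)
  obtain ⟨D₂, hD₂⟩ := hED
  obtain ⟨A₂, hA₂⟩ := hz
  have hA'b : wdeg 1 (A - C z * G) ≤ wdeg 1 G := by
    rw [← mem_Vt]
    apply Submodule.sub_mem
    · rw [mem_Vt, hGw]; exact hAb
    · rw [← smul_eq_C_mul]
      apply Submodule.smul_mem
      rw [mem_Vt]
  have hA'J : ∀ f ∈ Jd p T, ∃ α β, (A - C z * G) * f = α * D + β * G := by
    intro f hf
    obtain ⟨α, β, h⟩ := hAJ f hf
    exact ⟨α, β - C z * f, by linear_combination h⟩
  have hfin := strip hp hD hDa hDT hG0 hGy hnef hbig (A - C z * G) hA'b hA'J (ydeg D₂) E D₂ A₂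
    hD₂ hEpos hA₂ le_rfl
  apply hA
  have h1 : D ∣ A - C z * G := by
    rw [hD₂, hA₂]
    exact mul_dvd_mul_left E hfin
  obtain ⟨w, hw⟩ := h1
  rw [Ideal.mem_span_pair]
  exact ⟨w, C z, by linear_combination -hw⟩

end Pool.Agent.helper1.KV
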